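import Mathlib

/-!
# The gcd recursion for prime triples: the choice of the parameters
-/

set_option autoImplicit false

namespace Pool.Agent.K9h6.GS

open Filter Topology

theorem asy : ∃ N₀ : ℕ, ∀ N : ℕ, N₀ ≤ N → ∀ K D : ℕ,
    (K : ℝ) ^ 2 * D ≤ Real.exp (1 / 250 * Real.log N ^ (1 / 4 : ℝ)) →
    ∃ L l : ℕ, 16 * K ^ 2 * D ≤ L ∧ 1 + Real.log (Nat.sqrt N) ≤ L ∧ L < 2 ^ l ∧ 2 ^ l ≤ L ^ 2 ∧
      64 * (137 + 28 * l) ^ 2 * l + 2 ≤ L ∧ L ^ (1100 * (137 + 28 * l) ^ 3) ≤ Nat.sqrt N ∧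
      10 ^ 7 ≤ Real.log N ^ (1 / 4 : ℝ) := by
  have htend : Tendsto (fun N : ℕ => Real.log N ^ (1 / 4 : ℝ)) atTop atTop :=
    (tendsto_rpow_atTop (by norm_num : (0 : ℝ) < 1 / 4)).comp
      (Real.tendsto_log_atTop.comp tendsto_natCast_atTop_atTop)
  obtain ⟨N₀, hN₀⟩ := (htend.eventually_ge_atTop (10 ^ 7)).exists_forall_of_atTop
  refine ⟨N₀ + 3, ?_⟩
  intro N hN K D hKD
  have ht := hN₀ N (by omega)
  obtain ⟨t, htd⟩ : ∃ t, t = Real.log N ^ (1 / 4 : ℝ) := ⟨_, rfl⟩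
  rw [← htd] at ht hKD ⊢
  have hN3 : (3 : ℝ) ≤ N := by exact_mod_cast (show 3 ≤ N by omega)
  have hlN : 0 < Real.log N := Real.log_pos (by linarith)
  have ht4 : Real.log N = t ^ 4 := by
    rw [htd, ← Real.rpow_natCast, ← Real.rpow_mul hlN.le]
    norm_num
  obtain ⟨q, hq⟩ : ∃ q, q = t / 1000 := ⟨_, rfl⟩
  have htq : t = 1000 * q := by rw [hq]; ring
  have hq4 : 10 ^ 4 ≤ q := by rw [hq]; linarith
  have hq0 : 0 < q := by linarith
  have hlogN : Real.log N = 10 ^ 12 * q ^ 4 := by rw [ht4, htq]; ring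
  have hexp : q ^ 8 ≤ Real.exp (8 * q) := by
    have h1 : q ≤ Real.exp q := by
      have := Real.add_one_le_exp q
      linarith
    have h2 : Real.exp (8 * q) = Real.exp q ^ 8 := by
      rw [← Real.exp_nat_mul]
      norm_num
    rw [h2]
    gcongr
  have hq4' : (10 ^ 16 : ℝ) ≤ q ^ 4 := by
    calc (10 ^ 16 : ℝ) = (10 ^ 4) ^ 4 := by norm_num
      _ ≤ q ^ 4 := by gcongr
  have hq8 : 10 ^ 16 * q ^ 4 ≤ q ^ 8 := by
    calc 10 ^ 16 * q ^ 4 ≤ q ^ 4 * q ^ 4 := by gcongr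
      _ = q ^ 8 := by ring
  obtain ⟨L, hL⟩ : ∃ L, L = ⌊Real.exp (8 * q)⌋₊ := ⟨_, rfl⟩
  have hL1 : (L : ℝ) ≤ Real.exp (8 * q) := by rw [hL]; exact Nat.floor_le (Real.exp_pos _).le
  have hL2 : Real.exp (8 * q) < L + 1 := by rw [hL]; exact Nat.lt_floor_add_one _
  have hL8 : q ^ 8 < L + 1 := lt_of_le_of_lt hexp hL2
  have hLbig : (10 ^ 6 : ℝ) ≤ L := by
    have h1 : (10 ^ 16 : ℝ) * 10 ^ 16 ≤ q ^ 8 := by linarith
    have h2 : (10 ^ 6 : ℝ) + 1 ≤ 10 ^ 16 * 10 ^ 16 := by norm_num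
    linarith
  have hLN : 10 ^ 6 ≤ L := by exact_mod_cast hLbig
  obtain ⟨l, hl⟩ : ∃ l, l = Nat.log 2 L + 1 := ⟨_, rfl⟩
  have hl1 : L < 2 ^ l := by rw [hl]; exact Nat.lt_pow_succ_log_self (by norm_num) L
  have hl2 : 2 ^ (l - 1) ≤ L := by
    rw [hl, Nat.add_sub_cancel]
    exact Nat.pow_log_le_self 2 (by omega)
  have hl0 : 1 ≤ l := by omega
  have hlR : (l : ℝ) ≤ 12 * q := by
    have h1 : ((2 : ℝ) ^ (l - 1)) ≤ Real.exp (8 * q) := by
      refine le_trans ?_ hL1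
      exact_mod_cast hl2
    have h2 : Real.log ((2 : ℝ) ^ (l - 1)) ≤ 8 * q := by
      rw [Real.log_le_iff_le_exp (by positivity)]
      exact h1
    rw [Real.log_pow, Nat.cast_sub hl0] at h2
    push_cast at h2
    have h3 := Real.log_two_gt_d9
    have h4 : (1 : ℝ) ≤ l := by exact_mod_cast hl0
    nlinarith
  have hmR : ((137 + 28 * l : ℕ) : ℝ) ≤ 337 * q := by
    push_cast
    linarith
  refine ⟨L, l, ?_, ?_, hl1, ?_, ?_, ?_, ht⟩
  · rw [hL]
    apply Nat.le_floor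
    push_cast
    have h1 : (16 : ℝ) ≤ Real.exp (4 * q) := by
      have := Real.add_one_le_exp (4 * q)
      linarith
    have e1 : (1 / 250 : ℝ) * t = 4 * q := by rw [htq]; ring
    rw [e1] at hKD
    calc (16 : ℝ) * K ^ 2 * D = 16 * (K ^ 2 * D) := by ring
      _ ≤ Real.exp (4 * q) * Real.exp (4 * q) := by gcongr
      _ = Real.exp (8 * q) := by
        rw [← Real.exp_add]
        congr 1
        ring
  · have h1 : Real.log (Nat.sqrt N) ≤ Real.log N := by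
      apply Real.log_le_log
      · have : 0 < Nat.sqrt N := Nat.sqrt_pos.mpr (by omega)
        exact_mod_cast this
      · exact_mod_cast Nat.sqrt_le_self N
    rw [hlogN] at h1
    linarith
  · calc 2 ^ l = 2 * 2 ^ (l - 1) := by rw [← pow_succ']; congr 1; omega
      _ ≤ L * L := Nat.mul_le_mul (by omega) hl2
      _ = L ^ 2 := by ring
  · have h1 : (64 * ((137 + 28 * l : ℕ) : ℝ) ^ 2 * l + 2 : ℝ) + 1 ≤ L + 1 := by
      calc (64 * ((137 + 28 * l : ℕ) : ℝ) ^ 2 * l + 2 : ℝ) + 1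
          ≤ 64 * (337 * q) ^ 2 * (12 * q) + 2 + 1 := by gcongr
        _ = 87220992 * q ^ 3 + 3 := by ring
        _ ≤ q ^ 8 := by
            have h2 : q ^ 3 * 10 ^ 4 ≤ q ^ 4 := by
              calc q ^ 3 * 10 ^ 4 ≤ q ^ 3 * q := by gcongr
                _ = q ^ 4 := by ring
            have h3 : 0 < q ^ 3 := by positivity
            linarith
        _ ≤ L + 1 := hL8.le
    have h2 : (64 * ((137 + 28 * l : ℕ) : ℝ) ^ 2 * l + 2 : ℝ) ≤ L := by linarith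
    exact_mod_cast h2
  · obtain ⟨E, hE⟩ : ∃ E, E = 1100 * (137 + 28 * l) ^ 3 := ⟨_, rfl⟩
    rw [← hE]
    have hER : (E : ℝ) ≤ 1100 * (337 * q) ^ 3 := by
      rw [hE]
      rw [Nat.cast_mul, Nat.cast_pow]
      push_cast at hmR ⊢
      gcongr
    have hsN : Real.exp (Real.log N / 2) ≤ 2 * (Nat.sqrt N : ℝ) := by
      have h1 : Real.sqrt N = Real.exp (Real.log N / 2) := by
        rw [Real.exp_half, Real.exp_log (by linarith)]
      have h2 : Real.sqrt N ≤ Nat.sqrt N + 1 := Real.real_sqrt_le_nat_sqrt_succ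
      have h3 : (1 : ℝ) ≤ Nat.sqrt N := by
        have : 0 < Nat.sqrt N := Nat.sqrt_pos.mpr (by omega)
        exact_mod_cast this
      rw [← h1]
      linarith
    have hmain : (L : ℝ) ^ E ≤ Nat.sqrt N := by
      have h1 : (L : ℝ) ^ E ≤ Real.exp (E * (8 * q)) := by
        rw [Real.exp_nat_mul]
        gcongr
      have h2 : (E : ℝ) * (8 * q) + 1 ≤ Real.log N / 2 := by
        rw [hlogN]
        have k1 : (E : ℝ) * (8 * q) ≤ 1100 * (337 * q) ^ 3 * (8 * q) := by gcongr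
        have k2 : 1100 * (337 * q) ^ 3 * (8 * q) = 336800226400 * q ^ 4 := by ring
        have k3 : 0 < q ^ 4 := by positivity
        linarith
      have h3 : Real.exp (E * (8 * q)) * 2 ≤ Real.exp (Real.log N / 2) := by
        have k1 : (2 : ℝ) ≤ Real.exp 1 := by
          have := Real.add_one_le_exp (1 : ℝ)
          linarith
        calc Real.exp (E * (8 * q)) * 2 ≤ Real.exp (E * (8 * q)) * Real.exp 1 := by gcongr
          _ = Real.exp (E * (8 * q) + 1) := by rw [Real.exp_add]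
          _ ≤ Real.exp (Real.log N / 2) := Real.exp_le_exp.2 h2
      linarith
    exact_mod_cast hmain

end Pool.Agent.K9h6.GS
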