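import Pool.Agent.K9h6.GS.Var

/-!
# The gcd recursion for prime triples: the number of runs with the same offsets
-/

set_option autoImplicit false

namespace Pool.Agent.K9h6.GS

open Finset Pool.Agent.R701.GD Pool.Agent.K9h6.GR

variable {K D s N f : ℕ} {A : ℕ → ℕ}

/-- a finite set of labels near one point of the circle -/
lemma sum_labels (T : Finset (ℕ × ℕ)) (x₀ ε Y D₀ : ℝ) (hε : 0 ≤ ε) (hD : 0 < D₀)
    (hT : ∀ b ∈ T, Nat.Coprime b.1 b.2 ∧ b.1 < b.2 ∧ D₀ ≤ (b.2 : ℝ) ∧ (b.2 : ℝ) ≤ Y)
    (hnear : ∀ b ∈ T, ∃ j : ℤ, |x₀ - (b.1 : ℝ) / b.2 - j| ≤ ε) (hY : 0 ≤ Y) :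
    ∑ b ∈ T, 1 / (b.2 : ℝ) ≤ 1 / D₀ + Y * (2 * ε) := by
  classical
  choose! j hj using hnear
  have h1 := sum_inv_sep (fun b : ℕ × ℕ => (b.1 : ℝ) / b.2 + j b) (fun b => (b.2 : ℝ)) Y D₀ (x₀ - ε) hD
    T.card T rfl (fun b hb => (hT b hb).2.2) (fun b hb b' hb' hne => by
      have := frac_sep (hT b hb).1 (hT b' hb').1 (hT b hb).2.1 (hT b' hb').2.1
        (by intro h0; exact hne (Prod.ext (Prod.mk.inj h0).1 (Prod.mk.inj h0).2)) (j b' - j b)
      push_cast at this
      have e : (b.1 : ℝ) / b.2 + j b - ((b'.1 : ℝ) / b'.2 + j b') =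
          (b.1 : ℝ) / b.2 - (b'.1 : ℝ) / b'.2 - ((j b' : ℝ) - j b) := by ring
      rw [e]
      exact this)
    (x₀ + ε) (by linarith) (fun b hb => by
      have := hj b hb
      rw [abs_le] at this
      constructor <;> linarith [this.1, this.2]) hY
  have e : x₀ + ε - (x₀ - ε) = 2 * ε := by ring
  rw [e] at h1
  exact h1

/-- nearness of two fractions with the same previous label -/
lemma near_lab (h : Dat K D s N f A) {L M' V : ℕ} (hM' : 1 ≤ M') {e₀ e k k' : ℕ}
    (hd : e ≤ e₀ + V) (hd' : e₀ ≤ e + V) (hmod : e % 3 = e₀ % 3) (hk : k < k') (hkL : k' ≤ k + L)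
    (w1 : e₀ + k ∈ W D s f) (w2 : e₀ + k' ∈ W D s f) (w3 : e + k ∈ W D s f) (w4 : e + k' ∈ W D s f)
    (g1 : ∀ t, k < t → t < k' → M' * g A (e₀ + t) < s)
    (g2 : ∀ t, k < t → t < k' → M' * g A (e + t) < s)
    (hlab : Lab A (e₀ + k) = Lab A (e + k)) :
    ∃ j : ℤ, |((Lab A (e₀ + k')).1 : ℝ) / (Lab A (e₀ + k')).2 -
      ((Lab A (e + k')).1 : ℝ) / (Lab A (e + k')).2 - j| ≤ Er K D s L M' V := by
  have hx1 := x_eq (A := A) (n := e₀ + k') (by omega)
  have hx2 := x_eq (A := A) (n := e + k') (by omega)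
  obtain ⟨m₁, hm₁⟩ : ∃ m₁ : ℕ, m₁ = (A (e₀ + k') / g A (e₀ + k')) / (v (e₀ + k') / g A (e₀ + k')) :=
    ⟨_, rfl⟩
  obtain ⟨m₂, hm₂⟩ : ∃ m₂ : ℕ, m₂ = (A (e + k') / g A (e + k')) / (v (e + k') / g A (e + k')) :=
    ⟨_, rfl⟩
  rw [← hm₁] at hx1
  rw [← hm₂] at hx2
  have key : ∃ j : ℤ, |(A (e₀ + k') : ℝ) / v (e₀ + k') - (A (e + k') : ℝ) / v (e + k') - j| ≤
      Er K D s L M' V := by
    rcases le_total e₀ e with hle | hle
    · obtain ⟨d, rfl⟩ := Nat.exists_eq_add_of_le hle
      have e1 : e₀ + d + k = e₀ + k + d := by omega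
      have e2 : e₀ + d + k' = e₀ + k' + d := by omega
      rw [e1] at w3 hlab
      rw [e2] at w4
      rw [e2]
      refine step_var h hM' (by omega) (by omega) w1 w2 w3 w4 (by omega) (by omega) ?_ ?_ hlab
      · intro t h1 h2
        have := g1 (t - e₀) (by omega) (by omega)
        rwa [show e₀ + (t - e₀) = t by omega] at this
      · intro t h1 h2
        have := g2 (t - (e₀ + d)) (by omega) (by omega)
        rwa [show e₀ + d + (t - (e₀ + d)) = t by omega] at this
    · obtain ⟨d, rfl⟩ := Nat.exists_eq_add_of_le hle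
      have e1 : e + d + k = e + k + d := by omega
      have e2 : e + d + k' = e + k' + d := by omega
      rw [e1] at w1 hlab
      rw [e2] at w2
      rw [e2]
      obtain ⟨j, hj⟩ := step_var (L := L) (V := V) h hM' (by omega) (by omega) w3 w4 w1 w2 (by omega) (by omega)
        (by
          intro t h1 h2
          have := g2 (t - e) (by omega) (by omega)
          rwa [show e + (t - e) = t by omega] at this)
        (by
          intro t h1 h2
          have := g1 (t - (e + d)) (by omega) (by omega)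
          rwa [show e + d + (t - (e + d)) = t by omega] at this) hlab.symm
      refine ⟨-j, ?_⟩
      rw [← abs_neg]
      push_cast
      convert hj using 2
      ring
  obtain ⟨j, hj⟩ := key
  refine ⟨j + m₂ - m₁, ?_⟩
  rw [hx1, hx2] at hj
  push_cast
  convert hj using 2
  ring

/-- the number of the runs in a block with the same offsets `P` and the same middle offsets `B` -/
lemma class_count (h : Dat K D s N f A) {L M M' U r m₀ V b₀ c : ℕ} (hM' : 1 ≤ M') (hL : 1 ≤ L)
    (hs : 10 * D * (2 * K * M') ^ 2 < s) (P B E : Finset ℕ) (hPr : P.card ≤ r) (hB : m₀ ≤ B.card)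
    (hE : ∀ e ∈ E, b₀ ≤ e ∧ e < b₀ + V ∧ e % 3 = c)
    (hP : ∀ e ∈ E, ∀ k ∈ P, k ≤ L ∧ e + k ∈ G D s f A M')
    (hadj : ∀ e ∈ E, ∀ t, (∃ k ∈ P, t < k) → t ∉ P → e + t ∉ G D s f A M')
    (hmid : ∀ e ∈ E, ∀ k ∈ B, k ≠ 0 ∧ k ∈ P ∧ e + k ∈ G D s f A M ∧
      M' ≤ U * (Lab A (e + k)).2 ^ 2) (h0 : 0 ∈ P)
    (W1 Wm : ℝ) (hW1 : 1 + (2 * K * M') * (2 * Er K D s L M' V) ≤ W1)
    (hWm : √(U / M') + (2 * K * M) * (2 * Er K D s L M' V) ≤ Wm) (hWm1 : Wm ≤ 1) (hU : 1 ≤ U) :
    (E.card : ℝ) ≤ (((2 * K * M' + 1) ^ 2 : ℕ) : ℝ) ^ r + V * ((L : ℝ) + 6) ^ (r ^ 2) *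
      ((1 + 2 * K * M') * W1 ^ r * Wm ^ m₀) := by
  classical
  have hEr0 : 0 ≤ Er K D s L M' V := by unfold Er; positivity
  have hW1' : 1 ≤ W1 := by
    refine le_trans ?_ hW1
    have : 0 ≤ (2 * K * M' : ℝ) * (2 * Er K D s L M' V) := by positivity
    linarith
  have hWm0 : 0 ≤ Wm := by
    refine le_trans ?_ hWm
    positivity
  rcases E.eq_empty_or_nonempty with hEe | ⟨e₁, he₁⟩
  · rw [hEe]
    simp only [card_empty, Nat.cast_zero]
    positivity
  set ρ := P.card with hρ
  -- the increasing enumeration of `P`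
  obtain ⟨p, hp⟩ : ∃ p : ℕ → ℕ, p = fun i => if hi : i < ρ then P.orderEmbOfFin rfl ⟨i, hi⟩ else 0 :=
    ⟨_, rfl⟩
  have hpi : ∀ i (hi : i < ρ), p i = P.orderEmbOfFin rfl ⟨i, hi⟩ := by
    intro i hi
    rw [hp]
    simp only [dif_pos hi]
  have hpP : ∀ i, i < ρ → p i ∈ P := by
    intro i hi
    rw [hpi i hi]
    exact P.orderEmbOfFin_mem rfl _
  have hplt : ∀ i j, i < j → j < ρ → p i < p j := by
    intro i j hij hj
    rw [hpi i (by omega), hpi j hj]
    exact (P.orderEmbOfFin rfl).strictMono (by simpa using hij)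
  have hpsurj : ∀ k ∈ P, ∃ i, i < ρ ∧ p i = k := by
    intro k hk
    have : k ∈ Set.range (P.orderEmbOfFin rfl) := by
      rw [P.range_orderEmbOfFin rfl]
      exact hk
    obtain ⟨i, hi⟩ := this
    exact ⟨i.1, i.2, by rw [hpi i.1 i.2]; exact hi⟩
  have hpnot : ∀ i, i + 1 < ρ → ∀ t, p i < t → t < p (i + 1) → t ∉ P := by
    intro i hi t h1 h2 ht
    obtain ⟨j, hj, rfl⟩ := hpsurj t ht
    rcases lt_trichotomy j i with hlt | heq | hgt
    · have := hplt j i hlt (by omega)
      omega
    · rw [heq] at h1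
      omega
    · rcases Nat.lt_or_ge (i + 1) j with h3 | h3
      · have := hplt (i + 1) j h3 hj
        omega
      · have : j = i + 1 := by omega
        rw [this] at h2
        omega
  have hW' : ∀ e ∈ E, ∀ k ∈ P, e + k ∈ W D s f := fun e he k hk => (mem_G.1 (hP e he k hk).2).1
  have he1 : ∀ e ∈ E, ∀ k ∈ P, 1 ≤ e + k := by
    intro e he k hk
    have := (mem_W.1 (hW' e he k hk)).1.1
    omega
  -- labels
  obtain ⟨l, hl⟩ : ∃ l : ℕ → ℕ → ℕ × ℕ, l = fun i e => Lab A (e + p i) := ⟨_, rfl⟩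
  have hlab : ∀ e ∈ E, ∀ i, i < ρ → Nat.Coprime (l i e).1 (l i e).2 ∧ (l i e).1 < (l i e).2 ∧
      1 ≤ (l i e).2 ∧ (l i e).2 ≤ 2 * K * M' := by
    intro e he i hi
    rw [hl]
    have h1 := he1 e he (p i) (hpP i hi)
    exact ⟨lab_coprime h1, lab_lt h1, lab_pos h1, mu_le h (hP e he (p i) (hpP i hi)).2 v_eq_lab⟩
  have hmidl : ∀ e ∈ E, ∀ i, i < ρ → p i ∈ B → (l i e).2 ≤ 2 * K * M ∧ M' ≤ U * (l i e).2 ^ 2 := by
    intro e he i hi hiB
    rw [hl]
    obtain ⟨-, -, h2, h3⟩ := hmid e he (p i) hiB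
    exact ⟨mu_le h h2 v_eq_lab, h3⟩
  -- apply the tree lemma
  have hmain := tree_count E l (fun _ b => 1 / (b.2 : ℝ))
    (fun i => (if i = 0 then (1 + 2 * K * M' : ℝ) else 1) *
      (if i ≠ 0 ∧ p i ∈ B then Wm else 1) * W1)
    (((2 * K * M' + 1) ^ 2 : ℕ) : ℝ) (V * ((L : ℝ) + 6) ^ (r ^ 2)) ρ
    (fun i b => by positivity)
    (fun i => by
      have : 0 ≤ W1 := by linarith
      split_ifs <;> positivity)
    (by positivity) (by positivity)
    (by
      intro j hj e₀ he₀
      have hsub : (E.filter (fun e => ∀ i < j, l i e = l i e₀)).image (l j) ⊆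
          range (2 * K * M' + 1) ×ˢ range (2 * K * M' + 1) := by
        intro b hb
        rw [mem_image] at hb
        obtain ⟨e, he, rfl⟩ := hb
        have h1 := hlab e (mem_filter.1 he).1 j hj
        rw [mem_product, mem_range, mem_range]
        omega
      have := card_le_card hsub
      rw [card_product, card_range, ← sq] at this
      exact_mod_cast this)
    (by
      intro j hj e₀ he₀
      rcases Nat.eq_zero_or_pos j with hj0 | hj0
      · subst hj0
        simp only [if_true, ne_eq, not_true_eq_false, false_and, if_false, mul_one]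
        refine (sum_labels _ (1 / 2) (1 / 2)
          (2 * K * M') 1 (by norm_num) (by norm_num)
          (by
            intro b hb
            rw [mem_image] at hb
            obtain ⟨e, he, rfl⟩ := hb
            obtain ⟨a1, a2, a3, a4⟩ := hlab e (mem_filter.1 he).1 0 hj
            exact ⟨a1, a2, by exact_mod_cast a3, by exact_mod_cast a4⟩)
          (by
            intro b hb
            rw [mem_image] at hb
            obtain ⟨e, he, rfl⟩ := hb
            obtain ⟨a1, a2, a3, a4⟩ := hlab e (mem_filter.1 he).1 0 hj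
            refine ⟨0, ?_⟩
            have b1 : (0 : ℝ) < (l 0 e).2 := by exact_mod_cast a3
            have b2 : 0 ≤ ((l 0 e).1 : ℝ) / (l 0 e).2 := by positivity
            have b3 : ((l 0 e).1 : ℝ) / (l 0 e).2 ≤ 1 := by
              rw [div_le_one b1]
              exact_mod_cast a2.le
            rw [abs_le]
            push_cast
            constructor <;> linarith)
          (by positivity)).trans ?_
        have e1 : 1 / (1 : ℝ) + 2 * K * M' * (2 * (1 / 2)) = 1 + 2 * K * M' := by ring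
        rw [e1]
        exact le_mul_of_one_le_right (by positivity) hW1'
      · obtain ⟨i, rfl⟩ : ∃ i, j = i + 1 := ⟨j - 1, by omega⟩
        have hnear : ∀ b ∈ (E.filter (fun e => ∀ i' < i + 1, l i' e = l i' e₀)).image (l (i + 1)),
            ∃ j : ℤ, |((l (i + 1) e₀).1 : ℝ) / (l (i + 1) e₀).2 - (b.1 : ℝ) / b.2 - j| ≤
              Er K D s L M' V := by
          intro b hb
          rw [mem_image] at hb
          obtain ⟨e, he, rfl⟩ := hb
          rw [mem_filter] at he
          obtain ⟨heE, hel⟩ := he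
          have h1 := hel i (by omega)
          rw [hl] at h1 ⊢
          simp only at h1 ⊢
          obtain ⟨x1, x2, x3⟩ := hE e heE
          obtain ⟨y1, y2, y3⟩ := hE e₀ he₀
          have hPi := hpP i (by omega)
          have hPi' := hpP (i + 1) hj
          have gaps : ∀ e' ∈ E, ∀ t, p i < t → t < p (i + 1) → M' * g A (e' + t) < s := by
            intro e' he' t ht1 ht2
            have hnot := hadj e' he' t ⟨p (i + 1), hPi', ht2⟩ (hpnot i hj t ht1 ht2)
            have hWt : e' + t ∈ W D s f :=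
              convex (hW' e' he' (p i) hPi) (hW' e' he' (p (i + 1)) hPi') (by omega) (by omega)
            rw [mem_G] at hnot
            push Not at hnot
            exact hnot hWt
          exact near_lab h hM' (by omega) (by omega) (by omega) (hplt i (i + 1) (by omega) hj)
            (by have := (hP e heE (p (i + 1)) hPi').1; omega)
            (hW' e₀ he₀ _ hPi) (hW' e₀ he₀ _ hPi') (hW' e heE _ hPi) (hW' e heE _ hPi')
            (gaps e₀ he₀) (gaps e heE) h1.symm
        simp only [Nat.add_eq_zero_iff, one_ne_zero, and_false, if_false, ne_eq, not_false_eq_true,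
          true_and, one_mul]
        split_ifs with hiB
        · have hM'R : (0 : ℝ) < M' := by exact_mod_cast (show 0 < M' by omega)
          have hUR : (0 : ℝ) < U := by exact_mod_cast (show 0 < U by omega)
          have h1 := sum_labels ((E.filter (fun e => ∀ i' < i + 1, l i' e = l i' e₀)).image (l (i + 1)))
            (((l (i + 1) e₀).1 : ℝ) / (l (i + 1) e₀).2) (Er K D s L M' V) (2 * K * M) (√(M' / U))
            hEr0 (by positivity)
            (by
              intro b hb
              rw [mem_image] at hb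
              obtain ⟨e, he, rfl⟩ := hb
              obtain ⟨a1, a2, a3, a4⟩ := hlab e (mem_filter.1 he).1 (i + 1) hj
              obtain ⟨a5, a6⟩ := hmidl e (mem_filter.1 he).1 (i + 1) hj hiB
              refine ⟨a1, a2, ?_, by exact_mod_cast a5⟩
              rw [Real.sqrt_le_left (by positivity), div_le_iff₀ hUR]
              have : (M' : ℝ) ≤ U * ((l (i + 1) e).2 : ℝ) ^ 2 := by exact_mod_cast a6
              linarith) hnear (by positivity)
          refine h1.trans ?_
          have e1 : 1 / √((M' : ℝ) / U) = √(U / M') := by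
            rw [one_div, ← Real.sqrt_inv, inv_div]
          rw [e1]
          refine hWm.trans ?_
          exact le_mul_of_one_le_right hWm0 hW1'
        · have h1 := sum_labels ((E.filter (fun e => ∀ i' < i + 1, l i' e = l i' e₀)).image (l (i + 1)))
            (((l (i + 1) e₀).1 : ℝ) / (l (i + 1) e₀).2) (Er K D s L M' V) (2 * K * M') 1
            hEr0 (by norm_num)
            (by
              intro b hb
              rw [mem_image] at hb
              obtain ⟨e, he, rfl⟩ := hb
              obtain ⟨a1, a2, a3, a4⟩ := hlab e (mem_filter.1 he).1 (i + 1) hj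
              exact ⟨a1, a2, by exact_mod_cast a3, by exact_mod_cast a4⟩) hnear (by positivity)
          refine h1.trans ?_
          rw [div_one, one_mul]
          exact hW1)
    (by
      intro e₀ he₀
      set F := E.filter (fun e => ∀ i < ρ, l i e = l i e₀) with hF
      have he₀F : e₀ ∈ F := by rw [hF, mem_filter]; exact ⟨he₀, fun i _ => rfl⟩
      obtain ⟨n₀, hn₀⟩ : ∃ n₀, n₀ = F.min' ⟨e₀, he₀F⟩ := ⟨_, rfl⟩
      have hn₀F : n₀ ∈ F := by rw [hn₀]; exact F.min'_mem _
      have hmin : ∀ n ∈ F, n₀ ≤ n := fun n hn => by rw [hn₀]; exact F.min'_le n hn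
      have hFE : ∀ e ∈ F, e ∈ E ∧ ∀ i < ρ, l i e = l i e₀ := fun e he => by
        rw [hF, mem_filter] at he; exact he
      obtain ⟨q, hq⟩ : ∃ q : ℕ → ℕ, q = fun i => (l i e₀).2 := ⟨_, rfl⟩
      have hq1 : ∀ i ∈ range ρ, 1 ≤ q i := fun i hi => by
        rw [hq]
        exact (hlab e₀ he₀ i (mem_range.1 hi)).2.2.1
      obtain ⟨Q, hQ⟩ : ∃ Q, Q = (range ρ).lcm q := ⟨_, rfl⟩
      have hQ0 : 0 < Q := by
        rw [hQ]
        apply Nat.pos_of_ne_zero
        rw [Ne, Finset.lcm_eq_zero_iff]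
        rintro ⟨i, hi, h0⟩
        have := hq1 i hi
        omega
      have hdv : ∀ e ∈ F, ∀ i < ρ, q i ∣ v (e + p i) := by
        intro e he i hi
        have h1 := (hFE e he).2 i hi
        rw [hq]
        simp only
        rw [← h1, hl]
        simp only
        exact ⟨g A (e + p i), by rw [mul_comm]; exact v_eq_lab⟩
      have hdvd : ∀ n ∈ F, Q ∣ n - n₀ := by
        intro n hn
        rw [hQ]
        apply Finset.lcm_dvd
        intro i hi
        rw [mem_range] at hi
        have d1 := hdv n hn i hi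
        have d2 := hdv n₀ hn₀F i hi
        have hle := hmin n hn
        have m1 := (hE n (hFE n hn).1).2.2
        have m2 := (hE n₀ (hFE n₀ hn₀F).1).2.2
        have sh := v_shift (show n₀ % 3 = n % 3 by omega) (p i)
        have e : v (n + p i) = v (n₀ + p i) + (n - n₀) := by omega
        rw [e] at d1
        exact (Nat.dvd_add_right d2).1 d1
      have hcard : F.card ≤ V / Q + 1 := by
        rw [← card_range (V / Q + 1)]
        refine card_le_card_of_injOn (fun n => (n - n₀) / Q) ?_ ?_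
        · intro n hn
          rw [mem_coe, mem_range, Nat.lt_succ_iff]
          apply Nat.div_le_div_right
          have a1 := hE n (hFE n hn).1
          have a2 := hE n₀ (hFE n₀ hn₀F).1
          omega
        · intro n hn n' hn' heq
          have a1 := Nat.div_mul_cancel (hdvd n hn)
          have a2 := Nat.div_mul_cancel (hdvd n' hn')
          have heq' : (n - n₀) / Q = (n' - n₀) / Q := heq
          rw [heq'] at a1
          have := hmin n hn
          have := hmin n' hn'
          omega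
      have small : ∀ a c : ℕ, a ≤ 2 * K * M' → c ≤ 2 * K * M' → 10 * D * (a * c) < s := by
        intro a c ha hc
        calc 10 * D * (a * c) ≤ 10 * D * ((2 * K * M') * (2 * K * M')) := by gcongr
          _ = 10 * D * (2 * K * M') ^ 2 := by ring
          _ < s := hs
      have hgcd : ∀ i ∈ range ρ, ∀ j ∈ range ρ, i ≠ j → Nat.gcd (q i) (q j) ≤ L + 6 := by
        have key : ∀ i j, i < j → j < ρ → Nat.gcd (q i) (q j) ≤ L + 6 := by
          intro i j hij hj
          have hi : i < ρ := by omega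
          have e1 : v (e₀ + p i) = g A (e₀ + p i) * q i := by rw [hq, hl]; exact v_eq_lab
          have e2 : v (e₀ + p j) = g A (e₀ + p j) * q j := by rw [hq, hl]; exact v_eq_lab
          have b1 := (hlab e₀ he₀ i hi).2.2.2
          have b2 := (hlab e₀ he₀ j hj).2.2.2
          have hlt := hplt i j hij hj
          have hjL := (hP e₀ he₀ (p j) (hpP j hj)).1
          exact gcd_le h (L := L) (hW' e₀ he₀ _ (hpP i hi)) (hW' e₀ he₀ _ (hpP j hj)) (by omega)
            (by omega) e1 e2 (small _ _ (by rw [hq]; exact b1) (by rw [hq]; exact b2))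
        intro i hi j hj hij
        rw [mem_range] at hi hj
        rcases lt_or_gt_of_ne hij with hlt | hlt
        · exact key i j hlt hj
        · rw [Nat.gcd_comm]
          exact key j i hlt hi
      have hprod := prod_le_lcm (range ρ) q (L + 6) (by omega) hq1 hgcd
      rw [← hQ, card_range] at hprod
      have hprod2 : ∏ i ∈ range ρ, q i ≤ Q * (L + 6) ^ (r ^ 2) := by
        refine hprod.trans (Nat.mul_le_mul_left _ (Nat.pow_le_pow_right (by omega) ?_))
        exact Nat.pow_le_pow_left hPr 2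
      have hprodR : (∏ i ∈ range ρ, (q i : ℝ)) ≤ Q * ((L : ℝ) + 6) ^ (r ^ 2) := by
        exact_mod_cast hprod2
      have hpp : 0 < ∏ i ∈ range ρ, (q i : ℝ) := prod_pos fun i hi => by
        have := hq1 i hi
        positivity
      have hQR : (0 : ℝ) < Q := by exact_mod_cast hQ0
      have e1 : ∏ i ∈ range ρ, (1 / ((l i e₀).2 : ℝ)) = 1 / ∏ i ∈ range ρ, (q i : ℝ) := by
        rw [prod_div_distrib, hq]
        simp
      show (F.card : ℝ) ≤ 1 + V * ((L : ℝ) + 6) ^ (r ^ 2) * ∏ i ∈ range ρ, (1 / ((l i e₀).2 : ℝ))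
      rw [e1]
      calc (F.card : ℝ) ≤ ((V / Q + 1 : ℕ) : ℝ) := by exact_mod_cast hcard
        _ ≤ V / Q + 1 := by
          push_cast
          have := Nat.cast_div_le (α := ℝ) (m := V) (n := Q)
          linarith
        _ ≤ V * ((L : ℝ) + 6) ^ (r ^ 2) * (1 / ∏ i ∈ range ρ, (q i : ℝ)) + 1 := by
          have hV0 : (0 : ℝ) ≤ V := Nat.cast_nonneg _
          rw [div_eq_mul_one_div, mul_assoc]
          gcongr
          rw [mul_one_div, div_le_div_iff₀ hQR hpp]
          linarith
        _ = _ := by ring)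
  refine hmain.trans ?_
  have hpow : (((2 * K * M' + 1) ^ 2 : ℕ) : ℝ) ^ ρ ≤ (((2 * K * M' + 1) ^ 2 : ℕ) : ℝ) ^ r := by
    apply pow_le_pow_right₀ _ hPr
    have : 1 ≤ (2 * K * M' + 1) ^ 2 := Nat.one_le_pow _ _ (by omega)
    exact_mod_cast this
  have hprod : ∏ i ∈ range ρ, ((if i = 0 then (1 + 2 * K * M' : ℝ) else 1) *
      (if i ≠ 0 ∧ p i ∈ B then Wm else 1) * W1) ≤ (1 + 2 * K * M') * W1 ^ r * Wm ^ m₀ := by
    rw [prod_mul_distrib, prod_mul_distrib, prod_const, card_range]
    have f1 : ∏ i ∈ range ρ, (if i = 0 then (1 + 2 * K * M' : ℝ) else 1) ≤ 1 + 2 * K * M' := by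
      rw [prod_ite, prod_const_one, mul_one, prod_const]
      have hc : ((range ρ).filter (fun i => i = 0)).card ≤ 1 := by
        rw [card_le_one]
        intro a ha b hb
        rw [mem_filter] at ha hb
        omega
      have h1 : (1 : ℝ) ≤ 1 + 2 * K * M' := by
        have : (0 : ℝ) ≤ 2 * K * M' := by positivity
        linarith
      calc (1 + 2 * K * M' : ℝ) ^ ((range ρ).filter (fun i => i = 0)).card
          ≤ (1 + 2 * K * M' : ℝ) ^ 1 := pow_le_pow_right₀ h1 hc
        _ = _ := pow_one _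
    have f2 : ∏ i ∈ range ρ, (if i ≠ 0 ∧ p i ∈ B then Wm else 1) ≤ Wm ^ m₀ := by
      rw [prod_ite, prod_const_one, mul_one, prod_const]
      apply pow_le_pow_of_le_one hWm0 hWm1
      refine hB.trans ?_
      have hsub : B ⊆ ((range ρ).filter (fun i => i ≠ 0 ∧ p i ∈ B)).image p := by
        intro k hk
        obtain ⟨hk0, hkP, -, -⟩ := hmid e₁ he₁ k hk
        obtain ⟨i, hi, rfl⟩ := hpsurj k hkP
        rw [mem_image]
        refine ⟨i, ?_, rfl⟩
        rw [mem_filter, mem_range]
        refine ⟨hi, ?_, hk⟩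
        rintro rfl
        -- `p 0 = 0`
        obtain ⟨i₀, hi₀, h00⟩ := hpsurj 0 h0
        rcases Nat.eq_zero_or_pos i₀ with hz | hz
        · rw [hz] at h00
          exact hk0 h00
        · have := hplt 0 i₀ hz hi₀
          omega
      exact (card_le_card hsub).trans card_image_le
    have f3 : W1 ^ ρ ≤ W1 ^ r := pow_le_pow_right₀ hW1' hPr
    have n2 : 0 ≤ ∏ i ∈ range ρ, (if i ≠ 0 ∧ p i ∈ B then Wm else 1) :=
      prod_nonneg fun i _ => by split_ifs <;> positivity
    have n4 : 0 ≤ W1 := by linarith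
    calc (∏ i ∈ range ρ, (if i = 0 then (1 + 2 * K * M' : ℝ) else 1)) *
        (∏ i ∈ range ρ, (if i ≠ 0 ∧ p i ∈ B then Wm else 1)) * W1 ^ ρ
        ≤ (1 + 2 * K * M') * Wm ^ m₀ * W1 ^ r := by
          gcongr
      _ = _ := by ring
  gcongr

end Pool.Agent.K9h6.GS
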