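import Pool.Agent.K9h6.GS.Class

/-!
# The gcd recursion for prime triples: the number of the heavy runs
-/

set_option autoImplicit false

namespace Pool.Agent.K9h6.GS

open Finset Pool.Agent.R701.GD Pool.Agent.K9h6.GR

variable {K D s N f : ℕ} {A : ℕ → ℕ}

/-- the steps which begin a short run of `G M'` with many middle elements -/
noncomputable def Heavy (D s f : ℕ) (A : ℕ → ℕ) (L M M' U r m₀ : ℕ) : Finset ℕ :=
  open Classical in
  (G D s f A M').filter (fun e => ∃ z, e ≤ z ∧ z ≤ e + L ∧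
    ((G D s f A M').filter (fun k => e ≤ k ∧ k ≤ z)).card ≤ r ∧
    m₀ ≤ ((G D s f A M).filter (fun k => M' ≤ U * (Lab A k).2 ^ 2 ∧ e < k ∧ k ≤ z)).card)

/-- the small subsets -/
def Sub (L r : ℕ) : Finset (Finset ℕ) := (range (L + 1)).powerset.filter (fun P => P.card ≤ r)

lemma card_Sub (L r : ℕ) : (Sub L r).card ≤ (r + 1) * (L + 1) ^ r := by
  classical
  have h1 : Sub L r ⊆ (range (r + 1)).biUnion (fun i => (range (L + 1)).powersetCard i) := by
    intro P hP
    unfold Sub at hP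
    rw [mem_filter, mem_powerset] at hP
    rw [mem_biUnion]
    exact ⟨P.card, mem_range.2 (by omega), mem_powersetCard.2 ⟨hP.1, rfl⟩⟩
  refine (card_le_card h1).trans (card_biUnion_le.trans ?_)
  refine (sum_le_card_nsmul _ _ ((L + 1) ^ r) ?_).trans (by simp)
  intro i hi
  rw [mem_range] at hi
  rw [card_powersetCard, card_range]
  exact (Nat.choose_le_pow _ _).trans (Nat.pow_le_pow_right (by omega) (by omega))

lemma card_heavy (h : Dat K D s N f A) {L M M' U r m₀ V : ℕ} (hM' : 1 ≤ M') (hL : 1 ≤ L) (hV : 1 ≤ V)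
    (hMM : M ≤ M') (hs : 10 * D * (2 * K * M') ^ 2 < s)
    (W1 Wm : ℝ) (hW1 : 1 + (2 * K * M') * (2 * Er K D s L M' V) ≤ W1)
    (hWm : √(U / M') + (2 * K * M) * (2 * Er K D s L M' V) ≤ Wm) (hWm1 : Wm ≤ 1) (hU : 1 ≤ U) :
    ((Heavy D s f A L M M' U r m₀).card : ℝ) ≤
      ((f / V + 1 : ℕ) * (3 * (((r : ℝ) + 1) * ((L : ℝ) + 1) ^ r) ^ 2)) *
      ((((2 * K * M' + 1) ^ 2 : ℕ) : ℝ) ^ r + V * ((L : ℝ) + 6) ^ (r ^ 2) *
      ((1 + 2 * K * M') * W1 ^ r * Wm ^ m₀)) := by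
  classical
  have hex : ∀ e ∈ Heavy D s f A L M M' U r m₀, ∃ z, e ≤ z ∧ z ≤ e + L ∧
      ((G D s f A M').filter (fun k => e ≤ k ∧ k ≤ z)).card ≤ r ∧
      m₀ ≤ ((G D s f A M).filter (fun k => M' ≤ U * (Lab A k).2 ^ 2 ∧ e < k ∧ k ≤ z)).card := by
    intro e he
    unfold Heavy at he
    rw [mem_filter] at he
    obtain ⟨-, z, h1, h2, h3, h4⟩ := he
    refine ⟨z, h1, h2, ?_, ?_⟩
    · convert h3
    · convert h4
  choose! z hz using hex
  have hG : ∀ e ∈ Heavy D s f A L M M' U r m₀, e ∈ G D s f A M' := by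
    intro e he
    unfold Heavy at he
    exact (mem_filter.1 he).1
  obtain ⟨P, hP⟩ : ∃ P : ℕ → Finset ℕ,
    P = fun e => (range (L + 1)).filter (fun k => e + k ∈ G D s f A M' ∧ e + k ≤ z e) := ⟨_, rfl⟩
  obtain ⟨B, hB⟩ : ∃ B : ℕ → Finset ℕ,
    B = fun e => (range (L + 1)).filter (fun k => e + k ∈ G D s f A M ∧
      M' ≤ U * (Lab A (e + k)).2 ^ 2 ∧ k ≠ 0 ∧ e + k ≤ z e) := ⟨_, rfl⟩
  have hBP : ∀ e, B e ⊆ P e := by
    intro e k hk
    rw [hB, mem_filter] at hk
    rw [hP, mem_filter]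
    exact ⟨hk.1, G_mono hMM hk.2.1, hk.2.2.2.2⟩
  have hPr : ∀ e ∈ Heavy D s f A L M M' U r m₀, (P e).card ≤ r := by
    intro e he
    refine le_trans ?_ (hz e he).2.2.1
    refine card_le_card_of_injOn (fun k => e + k) ?_ (fun a _ b _ hab => by simpa using hab)
    intro k hk
    rw [mem_coe, hP, mem_filter] at hk
    rw [mem_coe, mem_filter]
    exact ⟨hk.2.1, Nat.le_add_right _ _, hk.2.2⟩
  have hBm : ∀ e ∈ Heavy D s f A L M M' U r m₀, m₀ ≤ (B e).card := by
    intro e he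
    have hze := hz e he
    refine hze.2.2.2.trans ?_
    refine card_le_card_of_injOn (fun k => k - e) ?_ ?_
    · intro k hk
      rw [mem_coe, mem_filter] at hk
      obtain ⟨k1, k2, k3, k4⟩ := hk
      rw [mem_coe, hB, mem_filter, mem_range]
      have e1 : e + (k - e) = k := by omega
      simp only
      rw [e1]
      exact ⟨by omega, k1, k2, by omega, k4⟩
    · intro a ha b hb hab
      rw [mem_coe, mem_filter] at ha hb
      simp only at hab
      omega
  set box : Finset (ℕ × ℕ × Finset ℕ × Finset ℕ) :=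
    range (f / V + 1) ×ˢ range 3 ×ˢ Sub L r ×ˢ Sub L r with hbox
  have hmaps : ∀ e ∈ Heavy D s f A L M M' U r m₀, (e / V, e % 3, P e, B e) ∈ box := by
    intro e he
    rw [hbox]
    simp only [mem_product, mem_range]
    have hef : e ≤ f := (mem_W.1 (mem_G.1 (hG e he)).1).1.2
    refine ⟨Nat.lt_succ_of_le (Nat.div_le_div_right hef), Nat.mod_lt _ (by norm_num), ?_, ?_⟩
    · unfold Sub
      rw [mem_filter, mem_powerset]
      exact ⟨by rw [hP]; exact filter_subset _ _, hPr e he⟩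
    · unfold Sub
      rw [mem_filter, mem_powerset]
      exact ⟨by rw [hB]; exact filter_subset _ _, (card_le_card (hBP e)).trans (hPr e he)⟩
  have hcard := card_eq_sum_card_fiberwise (f := fun e => (e / V, e % 3, P e, B e))
    (s := Heavy D s f A L M M' U r m₀) (t := box) hmaps
  obtain ⟨Q, hQ⟩ : ∃ Q : ℝ, Q = ((((2 * K * M' + 1) ^ 2 : ℕ) : ℝ) ^ r + V * ((L : ℝ) + 6) ^ (r ^ 2) *
      ((1 + 2 * K * M') * W1 ^ r * Wm ^ m₀)) := ⟨_, rfl⟩
  have hEr0 : 0 ≤ Er K D s L M' V := by unfold Er; positivity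
  have hW1' : 1 ≤ W1 := by
    refine le_trans ?_ hW1
    have : 0 ≤ (2 * K * M' : ℝ) * (2 * Er K D s L M' V) := by positivity
    linarith
  have hWm0 : 0 ≤ Wm := by
    refine le_trans ?_ hWm
    positivity
  have hQ0 : 0 ≤ Q := by rw [hQ]; positivity
  have hfib : ∀ τ ∈ box, ((((Heavy D s f A L M M' U r m₀).filter
      (fun e => (e / V, e % 3, P e, B e) = τ)).card : ℕ) : ℝ) ≤ Q := by
    rintro ⟨b, c, P₀, B₀⟩ _
    rcases ((Heavy D s f A L M M' U r m₀).filter
      (fun e => (e / V, e % 3, P e, B e) = (b, c, P₀, B₀))).eq_empty_or_nonempty with he | ⟨e₁, he₁⟩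
    · rw [he]
      simpa using hQ0
    have hmem : ∀ e ∈ (Heavy D s f A L M M' U r m₀).filter
        (fun e => (e / V, e % 3, P e, B e) = (b, c, P₀, B₀)),
        e ∈ Heavy D s f A L M M' U r m₀ ∧ e / V = b ∧ e % 3 = c ∧ P e = P₀ ∧ B e = B₀ := by
      intro e he
      rw [mem_filter] at he
      simp only [Prod.mk.injEq] at he
      exact he
    obtain ⟨g1, g2, g3, g4, g5⟩ := hmem e₁ he₁
    rw [hQ]
    refine class_count (b₀ := b * V) (c := c) h hM' hL hs P₀ B₀ _ (by rw [← g4]; exact hPr e₁ g1)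
      (by rw [← g5]; exact hBm e₁ g1) ?_ ?_ ?_ ?_ ?_ W1 Wm hW1 hWm hWm1 hU
    · intro e he
      obtain ⟨f1, f2, f3, f4, f5⟩ := hmem e he
      refine ⟨?_, ?_, f3⟩
      · rw [← f2]
        exact Nat.div_mul_le_self _ _
      · rw [← f2]
        exact Nat.lt_div_mul_add (by omega)
    · intro e he k hk
      obtain ⟨f1, f2, f3, f4, f5⟩ := hmem e he
      rw [← f4, hP, mem_filter, mem_range] at hk
      exact ⟨by omega, hk.2.1⟩
    · rintro e he t ⟨k, hk, htk⟩ ht hcon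
      obtain ⟨f1, f2, f3, f4, f5⟩ := hmem e he
      rw [← f4] at hk ht
      rw [hP, mem_filter, mem_range] at hk
      apply ht
      rw [hP, mem_filter, mem_range]
      exact ⟨by omega, hcon, by omega⟩
    · intro e he k hk
      obtain ⟨f1, f2, f3, f4, f5⟩ := hmem e he
      have hk2 := hk
      rw [← f5] at hk hk2
      rw [hB, mem_filter] at hk
      refine ⟨hk.2.2.2.1, ?_, hk.2.1, hk.2.2.1⟩
      rw [← f4]
      exact hBP e hk2
    · rw [← g4, hP, mem_filter, mem_range]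
      exact ⟨by omega, hG e₁ g1, (hz e₁ g1).1⟩
  have hsub : ((Sub L r).card : ℝ) ≤ ((r : ℝ) + 1) * ((L : ℝ) + 1) ^ r := by
    exact_mod_cast card_Sub L r
  have hbc : (box.card : ℝ) ≤ (f / V + 1 : ℕ) * (3 * (((r : ℝ) + 1) * ((L : ℝ) + 1) ^ r) ^ 2) := by
    rw [hbox, card_product, card_product, card_product, card_range, card_range]
    push_cast
    rw [sq]
    gcongr
  rw [← hQ]
  calc ((Heavy D s f A L M M' U r m₀).card : ℝ)
      = ∑ τ ∈ box, ((((Heavy D s f A L M M' U r m₀).filter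
        (fun e => (e / V, e % 3, P e, B e) = τ)).card : ℕ) : ℝ) := by exact_mod_cast hcard
    _ ≤ ∑ τ ∈ box, Q := sum_le_sum hfib
    _ = box.card * Q := by rw [sum_const, nsmul_eq_mul]
    _ ≤ _ := mul_le_mul_of_nonneg_right hbc hQ0

end Pool.Agent.K9h6.GS
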