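import Mathlib

/-!
# The gcd recursion for prime triples: combinatorial lemmas on runs
-/

set_option autoImplicit false

namespace Pool.Agent.K9h6.GS

open Finset

/-- no two neighbours of `S` in `T` -/
lemma low_count (S T : Finset ℕ) (hT : T ⊆ S)
    (hadj : ∀ a ∈ T, ∀ b ∈ T, a < b → ∃ c ∈ S, a < c ∧ c < b) : 2 * T.card ≤ S.card + 1 := by
  classical
  rcases T.eq_empty_or_nonempty with he | hne
  · rw [he]
    simp
  obtain ⟨m, hm⟩ : ∃ m, m = T.max' hne := ⟨_, rfl⟩
  have hmT : m ∈ T := by rw [hm]; exact T.max'_mem hne
  have hmax : ∀ x ∈ T, x ≤ m := fun x hx => by rw [hm]; exact T.le_max' x hx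
  -- the next element
  have hnext : ∀ t ∈ T.erase m, ∃ c ∈ S \ T, t < c ∧ ∀ x ∈ S, t < x → c ≤ x := by
    intro t ht
    rw [mem_erase] at ht
    have htm : t < m := lt_of_le_of_ne (hmax t ht.2) ht.1
    have hne2 : (S.filter (fun x => t < x)).Nonempty := ⟨m, mem_filter.2 ⟨hT hmT, htm⟩⟩
    obtain ⟨c, hc, hmin⟩ := (S.filter (fun x => t < x)).exists_min_image id hne2
    rw [mem_filter] at hc
    refine ⟨c, ?_, hc.2, fun x hx hx2 => hmin x (mem_filter.2 ⟨hx, hx2⟩)⟩
    rw [mem_sdiff]
    refine ⟨hc.1, fun hcT => ?_⟩
    obtain ⟨x, hx, h1, h2⟩ := hadj t ht.2 c hcT hc.2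
    have := hmin x (mem_filter.2 ⟨hx, h1⟩)
    simp only [id] at this
    omega
  choose! nx hnx using hnext
  have hcard : (T.erase m).card ≤ (S \ T).card := by
    refine card_le_card_of_injOn nx (fun t ht => (hnx t ht).1) ?_
    intro t ht t' ht' heq
    have h1 := hnx t ht
    have h2 := hnx t' ht'
    have hS := (mem_sdiff.1 h1.1).2
    rcases lt_trichotomy t t' with hlt | he | hlt
    · have hle := h1.2.2 t' (hT (mem_of_mem_erase ht')) hlt
      have := h2.2.1
      omega
    · exact he
    · have hle := h2.2.2 t (hT (mem_of_mem_erase ht)) hlt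
      have := h1.2.1
      omega
  rw [card_erase_of_mem hmT, card_sdiff_of_subset hT] at hcard
  have := card_le_card hT
  omega

/-- the `r`-th element -/
lemma exists_first (S : Finset ℕ) (r : ℕ) (hr : 1 ≤ r) (hS : r ≤ S.card) :
    ∃ z ∈ S, (S.filter (fun k => k ≤ z)).card = r := by
  classical
  have hex : ∃ z, r ≤ (S.filter (fun k => k ≤ z)).card := by
    refine ⟨S.sup id, ?_⟩
    rw [filter_true_of_mem]
    · exact hS
    · intro k hk
      exact le_sup (f := id) hk
  obtain ⟨z, hz⟩ : ∃ z, z = Nat.find hex := ⟨_, rfl⟩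
  have h1 : r ≤ (S.filter (fun k => k ≤ z)).card := by rw [hz]; exact Nat.find_spec hex
  have h2 : ∀ y, y < z → (S.filter (fun k => k ≤ y)).card < r := by
    intro y hy
    have := Nat.find_min hex (by rw [← hz]; exact hy)
    omega
  have h3 : (S.filter (fun k => k < z)).card < r := by
    rcases Nat.eq_zero_or_pos z with h0 | hp
    · rw [h0]
      simp
      omega
    · have := h2 (z - 1) (by omega)
      have e : S.filter (fun k => k < z) = S.filter (fun k => k ≤ z - 1) := by
        apply filter_congr
        intro k _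
        omega
      rw [e]
      exact this
  have h4 : S.filter (fun k => k ≤ z) ⊆ insert z (S.filter (fun k => k < z)) := by
    intro k hk
    rw [mem_filter] at hk
    rw [mem_insert, mem_filter]
    rcases hk.2.eq_or_lt with h | h
    · exact Or.inl h
    · exact Or.inr ⟨hk.1, h⟩
  have h5 := (card_le_card h4).trans (card_insert_le _ _)
  have hzS : z ∈ S := by
    by_contra hz
    have : S.filter (fun k => k ≤ z) ⊆ S.filter (fun k => k < z) := by
      intro k hk
      rw [mem_filter] at hk ⊢
      refine ⟨hk.1, lt_of_le_of_ne hk.2 ?_⟩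
      rintro rfl
      exact hz hk.1
    have := card_le_card this
    omega
  exact ⟨z, hzS, by omega⟩

/-- few elements of `B` in every short run of `S` -/
lemma run_count (r m₀ : ℕ) (hr : 1 ≤ r) : ∀ (N : ℕ) (S B : Finset ℕ), S.card = N → B ⊆ S →
    (∀ e ∈ S, ∀ z ∈ S, e ≤ z → (S.filter (fun k => e ≤ k ∧ k ≤ z)).card ≤ r →
      (B.filter (fun k => e ≤ k ∧ k ≤ z)).card ≤ m₀) →
    r * B.card ≤ m₀ * (S.card + r) := by
  classical
  intro N
  induction N using Nat.strong_induction_on with
  | _ N ih =>
    intro S B hN hB hrun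
    rcases S.eq_empty_or_nonempty with he | hne
    · rw [he, subset_empty] at hB
      rw [hB]
      simp
    have hmin : ∀ x ∈ S, S.min' hne ≤ x := fun x hx => S.min'_le x hx
    rcases Nat.lt_or_ge S.card r with hlt | hge
    · -- one run
      have h1 := hrun (S.min' hne) (S.min'_mem hne) (S.max' hne) (S.max'_mem hne)
        (S.min'_le _ (S.max'_mem hne)) ((card_filter_le _ _).trans hlt.le)
      rw [filter_true_of_mem (fun k hk => ⟨S.min'_le _ (hB hk), S.le_max' _ (hB hk)⟩)] at h1
      calc r * B.card ≤ r * m₀ := Nat.mul_le_mul_left _ h1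
        _ ≤ m₀ * (S.card + r) := by
          rw [mul_comm]
          exact Nat.mul_le_mul_left _ (by omega)
    · obtain ⟨z, hz, hzr⟩ := exists_first S r hr hge
      obtain ⟨S', hS'⟩ : ∃ S', S' = S.filter (fun k => ¬ k ≤ z) := ⟨_, rfl⟩
      obtain ⟨B', hB'⟩ : ∃ B', B' = B.filter (fun k => ¬ k ≤ z) := ⟨_, rfl⟩
      have hc1 := card_filter_add_card_filter_not (s := S) (fun k => k ≤ z)
      have hc2 := card_filter_add_card_filter_not (s := B) (fun k => k ≤ z)
      rw [← hS'] at hc1
      rw [← hB'] at hc2
      have e1 : S.filter (fun k => S.min' hne ≤ k ∧ k ≤ z) = S.filter (fun k => k ≤ z) := by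
        apply filter_congr
        intro k hk
        have := hmin k hk
        tauto
      have e2 : B.filter (fun k => S.min' hne ≤ k ∧ k ≤ z) = B.filter (fun k => k ≤ z) := by
        apply filter_congr
        intro k hk
        have := hmin k (hB hk)
        tauto
      have h1 := hrun (S.min' hne) (S.min'_mem hne) z hz (hmin z hz) (by rw [e1, hzr])
      rw [e2] at h1
      have h2 := ih S'.card (by omega) S' B' rfl
        (by rw [hS', hB']; exact filter_subset_filter _ hB)
        (by
          intro e he z' hz' hez hcard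
          have he2 := he
          have hz2 := hz'
          rw [hS', mem_filter] at he2 hz2
          have e3 : S'.filter (fun k => e ≤ k ∧ k ≤ z') = S.filter (fun k => e ≤ k ∧ k ≤ z') := by
            rw [hS', filter_filter]
            apply filter_congr
            intro k hk
            have := he2.2
            constructor
            · exact fun h => h.2
            · intro h
              exact ⟨by omega, h⟩
          have e4 : B'.filter (fun k => e ≤ k ∧ k ≤ z') = B.filter (fun k => e ≤ k ∧ k ≤ z') := by
            rw [hB', filter_filter]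
            apply filter_congr
            intro k hk
            have := he2.2
            constructor
            · exact fun h => h.2
            · intro h
              exact ⟨by omega, h⟩
          rw [e3] at hcard
          rw [e4]
          exact hrun e he2.1 z' hz2.1 hez hcard)
      have e5 : S'.card + r = S.card := by omega
      rw [e5] at h2
      have e6 : B.card ≤ m₀ + B'.card := by omega
      calc r * B.card ≤ r * (m₀ + B'.card) := Nat.mul_le_mul_left _ e6
        _ = m₀ * r + r * B'.card := by ring
        _ ≤ m₀ * r + m₀ * S.card := by omega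
        _ = m₀ * (S.card + r) := by ring

/-- growth of the numbers of elements -/
lemma chain' (S' : Finset ℕ) (c : ℕ) : ∀ (r : ℕ) (F : Finset ℕ) (n n' : ℕ), F.card = r → n < n' →
    (∀ x ∈ F, n < x ∧ x < n') →
    (∀ x y, (x = n ∨ x ∈ F) → (y ∈ F ∨ y = n') → x < y →
      c ≤ (S'.filter (fun k => x ≤ k ∧ k < y)).card) →
    (r + 1) * c ≤ (S'.filter (fun k => n ≤ k ∧ k < n')).card := by
  classical
  intro r
  induction r with
  | zero =>
    intro F n n' _ hnn _ hc
    have := hc n n' (Or.inl rfl) (Or.inr rfl) hnn
    omega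
  | succ r ih =>
    intro F n n' hF hnn hx hc
    have hne : F.Nonempty := card_pos.1 (by omega)
    obtain ⟨y, hy⟩ : ∃ y, y = F.max' hne := ⟨_, rfl⟩
    have hyF : y ∈ F := by rw [hy]; exact F.max'_mem hne
    have hmax : ∀ x ∈ F, x ≤ y := fun x hxF => by rw [hy]; exact F.le_max' x hxF
    have hyx := hx y hyF
    have h1 := ih (F.erase y) n y (by rw [card_erase_of_mem hyF]; omega) hyx.1
      (fun x hxF => by
        rw [mem_erase] at hxF
        have := hmax x hxF.2
        have := (hx x hxF.2).1
        omega)
      (fun x z hx1 hz1 hxz => by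
        refine hc x z ?_ ?_ hxz
        · rcases hx1 with h | h
          · exact Or.inl h
          · exact Or.inr (mem_of_mem_erase h)
        · rcases hz1 with h | h
          · exact Or.inl (mem_of_mem_erase h)
          · rw [h]; exact Or.inl hyF)
    have h2 := hc y n' (Or.inr hyF) (Or.inr rfl) hyx.2
    have e : (r + 1 + 1) * c = (r + 1) * c + c := by ring
    rw [e]
    have hdisj : Disjoint (S'.filter (fun k => n ≤ k ∧ k < y)) (S'.filter (fun k => y ≤ k ∧ k < n')) := by
      rw [disjoint_left]
      intro k hk hk'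
      rw [mem_filter] at hk hk'
      omega
    have hsub : (S'.filter (fun k => n ≤ k ∧ k < y)) ∪ (S'.filter (fun k => y ≤ k ∧ k < n')) ⊆
        S'.filter (fun k => n ≤ k ∧ k < n') := by
      intro k hk
      rw [mem_union, mem_filter, mem_filter] at hk
      rw [mem_filter]
      rcases hk with hk | hk
      · exact ⟨hk.1, by omega⟩
      · exact ⟨hk.1, by omega⟩
    have := card_le_card hsub
    rw [card_union_of_disjoint hdisj] at this
    omega

end Pool.Agent.K9h6.GS
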