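import Pool.Agent.K9h6.GR.Growth
import Pool.Agent.K9h6.GS.Run
import Pool.Agent.K9h6.GS.Heavy
import Pool.Agent.N60.FD.Stm

/-!
# The gcd recursion for prime triples: growth of the number of steps with a large gcd
-/

set_option autoImplicit false

namespace Pool.Agent.K9h6.GS

open Finset Pool.Agent.R701.GD Pool.Agent.K9h6.GR Pool.Agent.N60.FD

variable {K D s N f : ℕ} {A : ℕ → ℕ}

/-- the number of the elements of `G M` in an interval -/
noncomputable def cnt (D s f : ℕ) (A : ℕ → ℕ) (M n n' : ℕ) : ℕ :=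
  ((G D s f A M).filter (fun k => n ≤ k ∧ k < n')).card

lemma cnt_le {M n n' : ℕ} : cnt D s f A M n n' ≤ n' - n := by
  unfold cnt
  rw [← Nat.card_Ico]
  apply card_le_card
  intro k hk
  rw [mem_filter] at hk
  rw [mem_Ico]
  exact hk.2

lemma cnt_mono {M M' n n' : ℕ} (h : M ≤ M') : cnt D s f A M n n' ≤ cnt D s f A M' n n' :=
  card_le_card (filter_subset_filter _ (G_mono h))

/-- the first part of the growth -/
lemma phase1 {L R : ℕ} (Ms : ℕ → ℕ) (hmono : ∀ j, Ms j ≤ Ms (j + 1)) (J : ℕ) {n n' : ℕ}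
    (hn : n ∈ G D s f A (Ms 0)) (hn' : n' ∈ G D s f A (Ms 0)) (hlt : n < n') (hle : n' ≤ n + L)
    (hnr : ∀ k, n ≤ k → k < n' → ∀ j < J, k ∉ Rare D s f A L (Ms j) (Ms (j + 1)) R) :
    ∀ j, j ≤ J → (R + 1) ^ j ≤ cnt D s f A (Ms j) n n' := by
  classical
  have hM0 : ∀ j, Ms 0 ≤ Ms j := fun j => monotone_nat_of_le_succ hmono (Nat.zero_le j)
  intro j
  induction j with
  | zero =>
    intro _
    rw [pow_zero]
    unfold cnt
    apply card_pos.2
    exact ⟨n, mem_filter.2 ⟨hn, le_rfl, hlt⟩⟩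
  | succ j ih =>
    intro hj
    have h1 := ih (by omega)
    obtain ⟨F, hF⟩ : ∃ F, F = (G D s f A (Ms j)).filter (fun k => n < k ∧ k < n') := ⟨_, rfl⟩
    have hFm : ∀ x ∈ F, x ∈ G D s f A (Ms j) ∧ n < x ∧ x < n' := fun x hx => by
      rw [hF, mem_filter] at hx; exact hx
    have hFc : cnt D s f A (Ms j) n n' ≤ F.card + 1 := by
      unfold cnt
      refine (card_le_card ?_).trans (card_insert_le n F)
      intro k hk
      rw [mem_filter] at hk
      rw [mem_insert, hF, mem_filter]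
      rcases hk.2.1.eq_or_lt with h0 | h0
      · exact Or.inl h0.symm
      · exact Or.inr ⟨hk.1, h0, hk.2.2⟩
    have h2 := chain' (G D s f A (Ms (j + 1))) (R + 1) F.card F n n' rfl hlt
      (fun x hx => (hFm x hx).2) (by
        intro x y hx hy hxy
        have hxG : x ∈ G D s f A (Ms j) ∧ n ≤ x := by
          rcases hx with h0 | h0
          · rw [h0]; exact ⟨G_mono (hM0 j) hn, le_rfl⟩
          · exact ⟨(hFm x h0).1, (hFm x h0).2.1.le⟩
        have hyG : y ∈ G D s f A (Ms j) ∧ y ≤ n' := by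
          rcases hy with h0 | h0
          · exact ⟨(hFm y h0).1, (hFm y h0).2.2.le⟩
          · rw [h0]; exact ⟨G_mono (hM0 j) hn', le_rfl⟩
        have hR := hnr x hxG.2 (by omega) j (by omega)
        have h3 : R ≤ ((G D s f A (Ms (j + 1))).filter (fun k => x < k ∧ k < y)).card := by
          by_contra hc
          push Not at hc
          apply hR
          unfold Rare
          rw [mem_biUnion]
          refine ⟨_, mem_range.2 hc, ?_⟩
          unfold Rr
          rw [mem_filter]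
          exact ⟨hxG.1, y, hyG.1, hxy, by omega, rfl⟩
        have hxn : x ∉ (G D s f A (Ms (j + 1))).filter (fun k => x < k ∧ k < y) := by
          rw [mem_filter]
          omega
        have h4 := card_insert_of_notMem hxn
        have h5 : insert x ((G D s f A (Ms (j + 1))).filter (fun k => x < k ∧ k < y)) ⊆
            (G D s f A (Ms (j + 1))).filter (fun k => x ≤ k ∧ k < y) := by
          intro k hk
          rw [mem_insert, mem_filter] at hk
          rw [mem_filter]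
          rcases hk with h0 | h0
          · rw [h0]; exact ⟨G_mono (hmono j) hxG.1, le_rfl, hxy⟩
          · exact ⟨h0.1, h0.2.1.le, h0.2.2⟩
        have h6 := card_le_card h5
        omega)
    unfold cnt at h1 hFc ⊢
    calc (R + 1) ^ (j + 1) = (R + 1) ^ j * (R + 1) := pow_succ _ _
      _ ≤ (F.card + 1) * (R + 1) := Nat.mul_le_mul_right _ (h1.trans hFc)
      _ ≤ _ := h2

/-- the second part of the growth, one step -/
lemma phase2 {L M M' U J m : ℕ} (hm : 1 ≤ m) (hMM : M ≤ M') (hJ : M' ≤ 2 ^ J) (hU : 1 ≤ U) {n n' : ℕ}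
    (hle : n' ≤ n + L) (hbad : ∀ k, n ≤ k → k < n' → ∀ j < J, k ∉ Bad D s f A L U j)
    (hheavy : ∀ k, n ≤ k → k < n' → k ∉ Heavy D s f A L M M' U (8 * m) m)
    (hc : 8 * m ≤ cnt D s f A M n n') : 5 * cnt D s f A M n n' ≤ 4 * cnt D s f A M' n n' := by
  classical
  obtain ⟨S, hS⟩ : ∃ S, S = (G D s f A M).filter (fun k => n ≤ k ∧ k < n') := ⟨_, rfl⟩
  obtain ⟨S', hS'⟩ : ∃ S', S' = (G D s f A M').filter (fun k => n ≤ k ∧ k < n') := ⟨_, rfl⟩
  have eS : cnt D s f A M n n' = S.card := by rw [hS]; rfl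
  have eS' : cnt D s f A M' n n' = S'.card := by rw [hS']; rfl
  rw [eS] at hc ⊢
  rw [eS']
  have hSm : ∀ k, k ∈ S ↔ k ∈ G D s f A M ∧ n ≤ k ∧ k < n' := fun k => by rw [hS, mem_filter]
  have hSm' : ∀ k, k ∈ S' ↔ k ∈ G D s f A M' ∧ n ≤ k ∧ k < n' := fun k => by rw [hS', mem_filter]
  have hSS : S ⊆ S' := fun k hk => by
    rw [hSm] at hk
    rw [hSm']
    exact ⟨G_mono hMM hk.1, hk.2⟩
  obtain ⟨T, hT⟩ : ∃ T, T = S.filter (fun k => ¬ M' ≤ U * (Lab A k).2 ^ 2) := ⟨_, rfl⟩
  obtain ⟨B, hB⟩ : ∃ B, B = S.filter (fun k => M' ≤ U * (Lab A k).2 ^ 2) := ⟨_, rfl⟩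
  have hTB := card_filter_add_card_filter_not (s := S) (fun k => M' ≤ U * (Lab A k).2 ^ 2)
  rw [← hT, ← hB] at hTB
  have h1 := low_count S' T (by rw [hT]; exact (filter_subset _ _).trans hSS) (by
    intro a ha b hb hab
    rw [hT, mem_filter, hSm] at ha hb
    by_contra hcon
    push Not at hcon
    obtain ⟨⟨ha1, ha2, ha3⟩, ha4⟩ := ha
    obtain ⟨⟨hb1, hb2, hb3⟩, hb4⟩ := hb
    push Not at ha4 hb4
    have haW := (mem_G.1 ha1).1
    have hbW := (mem_G.1 hb1).1
    have ha0 : 1 ≤ a := by have := (mem_W.1 haW).1.1; omega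
    have hb0 : 1 ≤ b := by have := (mem_W.1 hbW).1.1; omega
    have hμ := lab_pos (A := A) ha0
    have hμ' := lab_pos (A := A) hb0
    have hP1 : 1 ≤ (Lab A a).2 * (Lab A b).2 := Nat.mul_pos hμ hμ'
    have hUP : U * ((Lab A a).2 * (Lab A b).2) < M' := by
      rcases le_total (Lab A a).2 (Lab A b).2 with hle' | hle'
      · refine lt_of_le_of_lt (Nat.mul_le_mul_left _ ?_) hb4
        rw [sq]
        exact Nat.mul_le_mul_right _ hle'
      · refine lt_of_le_of_lt (Nat.mul_le_mul_left _ ?_) ha4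
        rw [sq]
        exact Nat.mul_le_mul_left _ hle'
    have hj1 : 2 ^ (Nat.log 2 ((Lab A a).2 * (Lab A b).2)) ≤ (Lab A a).2 * (Lab A b).2 :=
      Nat.pow_log_le_self 2 (by omega)
    have hj2 : (Lab A a).2 * (Lab A b).2 < 2 ^ (Nat.log 2 ((Lab A a).2 * (Lab A b).2) + 1) :=
      Nat.lt_pow_succ_log_self (by norm_num) _
    have hjJ : Nat.log 2 ((Lab A a).2 * (Lab A b).2) < J := by
      apply (Nat.pow_lt_pow_iff_right (by norm_num : 1 < 2)).1
      refine lt_of_le_of_lt hj1 (lt_of_lt_of_le (lt_of_le_of_lt ?_ hUP) hJ)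
      exact Nat.le_mul_of_pos_left _ hU
    apply hbad a ha2 ha3 _ hjJ
    unfold Bad
    rw [mem_filter]
    refine ⟨haW, b, hbW, hab, by omega, (Lab A a).2, (Lab A b).2, v_eq_lab, v_eq_lab, hj1, hj2, ?_⟩
    intro k hk1 hk2
    have hkS : k ∉ S' := fun hk => by
      have := hcon k hk hk1
      omega
    rw [hSm'] at hkS
    have hkW : k ∈ W D s f := convex haW hbW (by omega) (by omega)
    have hkG : ¬ s ≤ M' * g A k := by
      intro h0
      exact hkS ⟨mem_G.2 ⟨hkW, h0⟩, by omega, by omega⟩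
    push Not at hkG
    exact lt_of_le_of_lt (Nat.mul_le_mul_right _ hUP.le) hkG)
  have h2 := run_count (8 * m) m (by omega) S'.card S' B rfl
    (by rw [hB]; exact (filter_subset _ _).trans hSS) (by
    intro e he z hz hez hcard
    rw [hSm'] at he hz
    have hnh := hheavy e he.2.1 he.2.2
    unfold Heavy at hnh
    rw [mem_filter] at hnh
    have e1 : (G D s f A M').filter (fun k => e ≤ k ∧ k ≤ z) = S'.filter (fun k => e ≤ k ∧ k ≤ z) := by
      ext k
      rw [mem_filter, mem_filter, hSm']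
      constructor
      · rintro ⟨k1, k2, k3⟩
        exact ⟨⟨k1, by omega, by omega⟩, k2, k3⟩
      · rintro ⟨⟨k1, -, -⟩, k2, k3⟩
        exact ⟨k1, k2, k3⟩
    have h3 : ¬ m ≤ ((G D s f A M).filter (fun k => M' ≤ U * (Lab A k).2 ^ 2 ∧ e < k ∧ k ≤ z)).card := by
      intro h0
      apply hnh
      exact ⟨he.1, z, hez, by omega, by rw [e1]; exact hcard, h0⟩
    have h4 : B.filter (fun k => e ≤ k ∧ k ≤ z) ⊆
        insert e ((G D s f A M).filter (fun k => M' ≤ U * (Lab A k).2 ^ 2 ∧ e < k ∧ k ≤ z)) := by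
      intro k hk
      rw [mem_filter, hB, mem_filter, hSm] at hk
      rw [mem_insert, mem_filter]
      obtain ⟨⟨⟨k1, -, -⟩, k2⟩, k3, k4⟩ := hk
      rcases k3.eq_or_lt with h0 | h0
      · exact Or.inl h0.symm
      · exact Or.inr ⟨k1, k2, h0, k4⟩
    have h5 := (card_le_card h4).trans (card_insert_le _ _)
    omega)
  have h3 : 8 * B.card ≤ S'.card + 8 * m := by
    have e1 : m * (8 * B.card) ≤ m * (S'.card + 8 * m) := by
      calc m * (8 * B.card) = 8 * m * B.card := by ring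
        _ ≤ _ := h2
    exact Nat.le_of_mul_le_mul_left e1 (by omega)
  omega

/-- the second part of the growth -/
lemma phase2_iter {L U J m I : ℕ} (Ns : ℕ → ℕ) (hm : 1 ≤ m) (hmono : ∀ i, Ns i ≤ Ns (i + 1))
    (hJ : Ns I ≤ 2 ^ J) (hU : 1 ≤ U) {n n' : ℕ} (hle : n' ≤ n + L)
    (hbad : ∀ k, n ≤ k → k < n' → ∀ j < J, k ∉ Bad D s f A L U j)
    (hheavy : ∀ k, n ≤ k → k < n' → ∀ i < I, k ∉ Heavy D s f A L (Ns i) (Ns (i + 1)) U (8 * m) m)
    (hc : 8 * m ≤ cnt D s f A (Ns 0) n n') :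
    ∀ i, i ≤ I → 5 ^ i * cnt D s f A (Ns 0) n n' ≤ 4 ^ i * cnt D s f A (Ns i) n n' := by
  have hM0 : ∀ i j, i ≤ j → Ns i ≤ Ns j := fun i j hij => monotone_nat_of_le_succ hmono hij
  intro i
  induction i with
  | zero => intro _; simp
  | succ i ih =>
    intro hi
    have h1 := ih (by omega)
    have h2 := phase2 (D := D) (s := s) (f := f) (A := A) hm (hmono i) ((hM0 (i + 1) I hi).trans hJ) hU
      hle hbad (fun k hk1 hk2 => hheavy k hk1 hk2 i (by omega))
      (hc.trans (cnt_mono (hM0 0 i (Nat.zero_le _))))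
    calc 5 ^ (i + 1) * cnt D s f A (Ns 0) n n' = 5 * (5 ^ i * cnt D s f A (Ns 0) n n') := by ring
      _ ≤ 5 * (4 ^ i * cnt D s f A (Ns i) n n') := Nat.mul_le_mul_left _ h1
      _ = 4 ^ i * (5 * cnt D s f A (Ns i) n n') := by ring
      _ ≤ 4 ^ i * (4 * cnt D s f A (Ns (i + 1)) n n') := Nat.mul_le_mul_left _ h2
      _ = 4 ^ (i + 1) * cnt D s f A (Ns (i + 1)) n n' := by ring

/-- a set with few exceptions is small -/
lemma total_of {L F : ℕ} (hL : 1 ≤ L) (S Ex : Finset ℕ) (hS : ∀ n ∈ S, n ≤ F)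
    (hex : ∀ n ∈ S, ∀ n' ∈ S, n < n' → n' ≤ n + L → ∃ k ∈ Ex, n ≤ k ∧ k < n') :
    S.card ≤ (F / L + 1) + L * Ex.card := by
  classical
  set Iso := S.filter (fun n => ¬ ∃ n' ∈ S, n < n' ∧ n' ≤ n + L) with hIso
  set Q := S.filter (fun n => ∃ n' ∈ S, n < n' ∧ n' ≤ n + L) with hQ
  have hsplit : S.card = Q.card + Iso.card :=
    (card_filter_add_card_filter_not (s := S) (fun n => ∃ n' ∈ S, n < n' ∧ n' ≤ n + L)).symm
  have hIsoc : Iso.card ≤ F / L + 1 := by
    have : Iso.card ≤ (range (F / L + 1)).card := by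
      apply card_le_card_of_injOn (fun n => n / L)
      · intro n hn
        have hn' : n ∈ Iso := hn
        rw [hIso, mem_filter] at hn'
        simp only [coe_range, Set.mem_Iio]
        exact Nat.lt_succ_of_le (Nat.div_le_div_right (hS n hn'.1))
      · intro n₁ h1 n₂ h2 heq
        have h1' : n₁ ∈ Iso := h1
        have h2' : n₂ ∈ Iso := h2
        rw [hIso, mem_filter] at h1' h2'
        simp only at heq
        have key : ∀ x y : ℕ, x / L = y / L → y ∈ S →
            (¬ ∃ n' ∈ S, x < n' ∧ n' ≤ x + L) → ¬ x < y := by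
          intro x y hxy hy hx2 hlt
          apply hx2
          refine ⟨y, hy, hlt, ?_⟩
          have a1 := Nat.div_add_mod x L
          have a2 := Nat.div_add_mod y L
          have a3 := Nat.mod_lt y (show 0 < L by omega)
          rw [hxy] at a1
          omega
        have k1 := key n₁ n₂ heq h2'.1 h1'.2
        have k2 := key n₂ n₁ heq.symm h1'.1 h2'.2
        omega
    simpa using this
  have hQsub : Q ⊆ Ex.biUnion (fun k => Ico (k + 1 - L) (k + 1)) := by
    intro n hn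
    rw [hQ, mem_filter] at hn
    obtain ⟨hn0, n', hn0', h1, h2⟩ := hn
    obtain ⟨k, hk, hk1, hk2⟩ := hex n hn0 n' hn0' h1 h2
    rw [mem_biUnion]
    refine ⟨k, hk, ?_⟩
    rw [mem_Ico]
    omega
  have hQc : Q.card ≤ Ex.card * L := by
    refine (card_le_card hQsub).trans (card_biUnion_le_card_mul _ _ _ ?_)
    intro k _
    rw [Nat.card_Ico]
    omega
  rw [mul_comm L]
  omega

end Pool.Agent.K9h6.GS
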