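import Pool.Agent.K9h6.GR.Core
import Pool.Agent.K9h6.GS.Heavy

/-!
# The gcd recursion for prime triples: the heavy runs are few
-/

set_option autoImplicit false

namespace Pool.Agent.K9h6.GS

open Finset Pool.Agent.R701.GD Pool.Agent.K9h6.GR

variable {K D s N f : ℕ} {A : ℕ → ℕ}

/-- the bound for the error -/
lemma Er_le {L M' : ℕ} (hK : 1 ≤ K) (hD : 2 ≤ D) (hL : 16 * K ^ 2 * D ≤ L) (hM' : 1 ≤ M')
    (hs : 1 ≤ s) : Er K D s L M' (s / M') ≤ (L : ℝ) ^ 4 / M' := by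
  obtain ⟨x, hx⟩ : ∃ x : ℝ, x = L := ⟨_, rfl⟩
  obtain ⟨k, hk⟩ : ∃ k : ℝ, k = K := ⟨_, rfl⟩
  obtain ⟨d, hd⟩ : ∃ d : ℝ, d = D := ⟨_, rfl⟩
  obtain ⟨Y, hY⟩ : ∃ Y : ℝ, Y = M' := ⟨_, rfl⟩
  have hLR : 16 * k ^ 2 * d ≤ x := by rw [hk, hd, hx]; exact_mod_cast hL
  have hk1 : 1 ≤ k := by rw [hk]; exact_mod_cast hK
  have hd2 : 2 ≤ d := by rw [hd]; exact_mod_cast hD
  have hY1 : 1 ≤ Y := by rw [hY]; exact_mod_cast hM'
  have hk2 : 1 ≤ k ^ 2 := one_le_pow₀ hk1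
  have hkk : k ≤ k ^ 2 := by nlinarith
  have e1 : 32 * k ^ 2 ≤ x := by nlinarith
  have e2 : 32 ≤ x := by linarith
  have e4 : k ^ 2 * d ≤ x / 16 := by linarith
  have e5 : d ≤ x / 16 := by nlinarith
  have e6 : k * d ≤ x / 16 := by nlinarith
  have x0 : 0 < x := by linarith
  have hsR : (0 : ℝ) < s := by exact_mod_cast (show 0 < s by omega)
  have hV : ((s / M' : ℕ) : ℝ) ≤ s / Y := by rw [hY]; exact Nat.cast_div_le
  have hV2 : ((s / M' : ℕ) : ℝ) / s ≤ 1 / Y := by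
    rw [div_le_div_iff₀ hsR (by linarith)]
    rw [le_div_iff₀ (by linarith)] at hV
    linarith
  unfold Er
  rw [← hx, ← hk, ← hd, ← hY]
  have f1 : 2 * d * x / Y ≤ (x ^ 4 / 2) / Y := by
    gcongr
    have : x ^ 2 ≤ x ^ 4 := pow_le_pow_right₀ (by linarith) (by norm_num)
    nlinarith
  have f2 : (x + 6) * (40 * k * d ^ 3 * (s / M' : ℕ) / s) ≤ (x ^ 4 / 2) / Y := by
    have g1 : (x + 6) * (40 * k * d ^ 3 * (s / M' : ℕ) / s) =
        ((x + 6) * (40 * ((k * d) * (d * d)))) * (((s / M' : ℕ) : ℝ) / s) := by ring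
    rw [g1]
    calc ((x + 6) * (40 * ((k * d) * (d * d)))) * (((s / M' : ℕ) : ℝ) / s)
        ≤ ((2 * x) * (40 * ((x / 16) * ((x / 16) * (x / 16))))) * (1 / Y) := by
          gcongr
          linarith
      _ = (80 / 4096 * x ^ 4) / Y := by ring
      _ ≤ (x ^ 4 / 2) / Y := by
          gcongr
          nlinarith [pow_pos x0 4]
  have f3 : (x ^ 4 / 2) / Y + (x ^ 4 / 2) / Y = x ^ 4 / Y := by ring
  linarith

/-- the heavy runs are few -/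
lemma small_heavy (h : Dat K D s N f A) {L M r m y : ℕ} (hL : 16 * K ^ 2 * D ≤ L) (hr1 : 1 ≤ r)
    (hrL : r + 1 ≤ L) (hM : L ^ 16 * L ^ y ≤ M) (hMr : M * L ^ y ≤ L ^ (r ^ 2)) (hy : 6 ≤ y)
    (hexp : 10 + 10 * r + 3 * r ^ 2 + 6 * m ≤ y * m)
    (hbig : L ^ (9 + 6 * r + r ^ 2 + 2 * r ^ 3) ≤ s) :
    (L : ℝ) ^ 4 * (Heavy D s f A L M (M * L ^ y) (L ^ 16) r m).card ≤ s := by
  have hK := h.K1
  have hD := h.D2
  have hs1 := h.s1
  have hL32 : 32 ≤ L := by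
    have : 1 ≤ K ^ 2 := Nat.one_le_pow _ _ hK
    nlinarith
  have hLy : 1 ≤ L ^ y := Nat.one_le_pow _ _ (by omega)
  have hM1 : 1 ≤ M := le_trans (Nat.mul_pos (Nat.one_le_pow _ _ (by omega)) hLy) hM
  obtain ⟨M', hM'⟩ : ∃ M', M' = M * L ^ y := ⟨_, rfl⟩
  rw [← hM'] at hMr ⊢
  have hM'1 : 1 ≤ M' := by rw [hM']; exact Nat.mul_pos hM1 hLy
  have hMM : M ≤ M' := by rw [hM']; exact Nat.le_mul_of_pos_right _ hLy
  have hr23 : r ^ 2 ≤ r ^ 3 := Nat.pow_le_pow_right hr1 (by norm_num)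
  have hM's : M' ≤ s := by
    refine hMr.trans (le_trans (Nat.pow_le_pow_right (by omega) ?_) hbig)
    omega
  obtain ⟨V, hV⟩ : ∃ V, V = s / M' := ⟨_, rfl⟩
  have hV1 : 1 ≤ V := by rw [hV]; exact Nat.div_pos hM's hM'1
  have hsmall : 10 * D * (2 * K * M') ^ 2 < s := by
    calc 10 * D * (2 * K * M') ^ 2 = 40 * K ^ 2 * D * M' ^ 2 := by ring
      _ ≤ 48 * K ^ 2 * D * M' ^ 2 := by gcongr; norm_num
      _ = 3 * (16 * K ^ 2 * D) * M' ^ 2 := by ring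
      _ ≤ 3 * L * M' ^ 2 := by gcongr
      _ < L * L * M' ^ 2 := by
          have : 0 < M' ^ 2 := by positivity
          gcongr
          omega
      _ ≤ L * L * (L ^ (r ^ 2)) ^ 2 := by gcongr
      _ = L ^ (2 + 2 * r ^ 2) := by
          rw [pow_add, ← pow_mul, mul_comm 2 (r ^ 2)]
          ring
      _ ≤ L ^ (9 + 6 * r + r ^ 2 + 2 * r ^ 3) := Nat.pow_le_pow_right (by omega) (by omega)
      _ ≤ s := hbig
  have hEr := Er_le (K := K) (D := D) (s := s) (L := L) (M' := M') hK hD hL hM'1 (by omega)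
  rw [← hV] at hEr
  have hfK := h.fK
  have hsV : s ≤ 2 * (M' * V) := by
    have h1 : s < M' * (V + 1) := by
      rw [hV]
      exact Nat.lt_mul_div_succ _ hM'1
    rw [mul_add] at h1
    have h2 : M' * 1 ≤ M' * V := Nat.mul_le_mul_left _ hV1
    omega
  -- real variables
  obtain ⟨x, hx⟩ : ∃ x : ℝ, x = L := ⟨_, rfl⟩
  obtain ⟨k, hk⟩ : ∃ k : ℝ, k = K := ⟨_, rfl⟩
  obtain ⟨d, hd⟩ : ∃ d : ℝ, d = D := ⟨_, rfl⟩
  obtain ⟨Y, hY⟩ : ∃ Y : ℝ, Y = M' := ⟨_, rfl⟩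
  obtain ⟨X, hX⟩ : ∃ X : ℝ, X = M := ⟨_, rfl⟩
  have hLR : 16 * k ^ 2 * d ≤ x := by rw [hk, hd, hx]; exact_mod_cast hL
  have hk1 : 1 ≤ k := by rw [hk]; exact_mod_cast hK
  have hd2 : 2 ≤ d := by rw [hd]; exact_mod_cast hD
  have hY1 : 1 ≤ Y := by rw [hY]; exact_mod_cast hM'1
  have hX1 : 1 ≤ X := by rw [hX]; exact_mod_cast hM1
  have hk2 : 1 ≤ k ^ 2 := one_le_pow₀ hk1
  have hkk : k ≤ k ^ 2 := by nlinarith
  have e1 : 32 * k ^ 2 ≤ x := by nlinarith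
  have e2 : 32 ≤ x := by linarith
  have e3 : k ≤ x / 32 := by linarith
  have x0 : 0 < x := by linarith
  have hx1 : 1 ≤ x := by linarith
  have hsR : (0 : ℝ) < s := by exact_mod_cast (show 0 < s by omega)
  have hYX : Y = X * x ^ y := by rw [hY, hX, hx, hM']; push_cast; ring
  have hxy0 : 0 < x ^ y := by positivity
  rw [← hx, ← hY] at hEr
  have hEr0 : 0 ≤ Er K D s L M' V := by unfold Er; positivity
  have hMR : x ^ 16 * x ^ y ≤ X := by rw [hx, hX]; exact_mod_cast hM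
  have hYr : Y ≤ x ^ (r ^ 2) := by rw [hY, hx]; exact_mod_cast hMr
  have hVR : (0 : ℝ) < V := by exact_mod_cast (show 0 < V by omega)
  have hVle : (V : ℝ) ≤ s / Y := by rw [hY, hV]; exact Nat.cast_div_le
  have hsVR : (s : ℝ) ≤ 2 * (Y * V) := by rw [hY]; exact_mod_cast hsV
  -- the two bounds
  have hW1 : 1 + (2 * K * M') * (2 * Er K D s L M' V) ≤ x ^ 6 := by
    rw [← hk, ← hY]
    calc 1 + (2 * k * Y) * (2 * Er K D s L M' V) ≤ 1 + (2 * k * Y) * (2 * (x ^ 4 / Y)) := by gcongr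
      _ = 1 + 4 * k * x ^ 4 := by field_simp; ring
      _ ≤ 1 + 4 * (x / 32) * x ^ 4 := by gcongr
      _ = 1 + x ^ 5 / 8 := by ring
      _ ≤ x ^ 6 := by
          have h1 : 1 ≤ x ^ 5 := one_le_pow₀ hx1
          nlinarith
  have hWm : √(((L ^ 16 : ℕ) : ℝ) / M') + (2 * K * M) * (2 * Er K D s L M' V) ≤ x ^ 6 / x ^ y := by
    have s1 : √(((L ^ 16 : ℕ) : ℝ) / M') ≤ 1 / x ^ y := by
      rw [Real.sqrt_le_left (by positivity)]
      push_cast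
      rw [← hx, ← hY, hYX, div_pow, one_pow, ← pow_mul, div_le_div_iff₀ (by positivity) (by positivity)]
      calc x ^ 16 * x ^ (y * 2) = (x ^ 16 * x ^ y) * x ^ y := by
            rw [mul_comm y 2, two_mul, pow_add]; ring
        _ ≤ X * x ^ y := by gcongr
        _ = 1 * (X * x ^ y) := by ring
    have s2 : (2 * K * M : ℝ) * (2 * Er K D s L M' V) ≤ (x ^ 5 / 8) / x ^ y := by
      rw [← hk, ← hX]
      calc (2 * k * X) * (2 * Er K D s L M' V) ≤ (2 * k * X) * (2 * (x ^ 4 / Y)) := by gcongr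
        _ = 4 * k * x ^ 4 / x ^ y := by rw [hYX]; field_simp; ring
        _ ≤ 4 * (x / 32) * x ^ 4 / x ^ y := by gcongr
        _ = (x ^ 5 / 8) / x ^ y := by ring
    have s3 : 1 / x ^ y + (x ^ 5 / 8) / x ^ y = (1 + x ^ 5 / 8) / x ^ y := by ring
    calc √(((L ^ 16 : ℕ) : ℝ) / M') + (2 * K * M) * (2 * Er K D s L M' V)
        ≤ 1 / x ^ y + (x ^ 5 / 8) / x ^ y := add_le_add s1 s2
      _ = (1 + x ^ 5 / 8) / x ^ y := s3
      _ ≤ x ^ 6 / x ^ y := by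
          gcongr
          have h1 : 1 ≤ x ^ 5 := one_le_pow₀ hx1
          nlinarith
  have hWm1 : x ^ 6 / x ^ y ≤ 1 := by
    rw [div_le_one hxy0]
    exact pow_le_pow_right₀ hx1 hy
  have hc := card_heavy (r := r) (m₀ := m) h hM'1 (by omega : 1 ≤ L) hV1 hMM hsmall (x ^ 6)
    (x ^ 6 / x ^ y) hW1 hWm hWm1 (Nat.one_le_pow _ _ (by omega))
  rw [← hx] at hc
  -- the factors
  have b1 : ((f / V + 1 : ℕ) : ℝ) ≤ x * Y := by
    have g1 : ((f / V : ℕ) : ℝ) ≤ 2 * k * Y := by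
      refine Nat.cast_div_le.trans ?_
      rw [div_le_iff₀ hVR]
      have : (f : ℝ) ≤ k * s := by rw [hk]; exact_mod_cast hfK
      nlinarith
    push_cast
    have g2 : 1 ≤ k * Y := by nlinarith
    calc ((f / V : ℕ) : ℝ) + 1 ≤ 2 * k * Y + k * Y := add_le_add g1 g2
      _ = (3 * k) * Y := by ring
      _ ≤ x * Y := by
          gcongr
          linarith
  have b2 : 3 * (((r : ℝ) + 1) * (x + 1) ^ r) ^ 2 ≤ x ^ (3 + 4 * r) := by
    have g1 : (r : ℝ) + 1 ≤ x := by rw [hx]; exact_mod_cast hrL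
    have g2 : (x + 1) ^ r ≤ x ^ (2 * r) := by
      calc (x + 1) ^ r ≤ (x ^ 2) ^ r := by gcongr; nlinarith
        _ = x ^ (2 * r) := by rw [← pow_mul]
    calc 3 * (((r : ℝ) + 1) * (x + 1) ^ r) ^ 2 ≤ x * (x * x ^ (2 * r)) ^ 2 := by
          gcongr
          linarith
      _ = x ^ (3 + 4 * r) := by
          rw [show 3 + 4 * r = 3 + (2 * r + 2 * r) by ring, pow_add, pow_add]
          ring
  have b3 : (((2 * K * M' + 1) ^ 2 : ℕ) : ℝ) ^ r ≤ (x * Y) ^ (2 * r) := by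
    push_cast
    rw [← hk, ← hY, ← pow_mul]
    have g2 : 1 ≤ k * Y := by nlinarith
    have : 2 * k * Y + 1 ≤ x * Y := by
      calc 2 * k * Y + 1 ≤ (3 * k) * Y := by linarith
        _ ≤ x * Y := by
            gcongr
            linarith
    gcongr
  have b4 : (x + 6) ^ (r ^ 2) ≤ x ^ (2 * r ^ 2) := by
    calc (x + 6) ^ (r ^ 2) ≤ (x ^ 2) ^ (r ^ 2) := by gcongr; nlinarith
      _ = x ^ (2 * r ^ 2) := by rw [← pow_mul]
  have b5 : (1 + 2 * K * M' : ℝ) ≤ x * Y := by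
    rw [← hk, ← hY]
    have g2 : 1 ≤ k * Y := by nlinarith
    calc 1 + 2 * k * Y ≤ (3 * k) * Y := by linarith
      _ ≤ x * Y := by
          gcongr
          linarith
  have hmain : ((Heavy D s f A L M M' (L ^ 16) r m).card : ℝ) ≤ ((x * Y) * x ^ (3 + 4 * r)) *
      ((x * Y) ^ (2 * r) + (s / Y) * x ^ (2 * r ^ 2) * ((x * Y) * (x ^ 6) ^ r * (x ^ 6 / x ^ y) ^ m)) := by
    refine hc.trans ?_
    gcongr
  -- the two terms
  have t1 : x * (x ^ 4 * (((x * Y) * x ^ (3 + 4 * r)) * (x * Y) ^ (2 * r))) ≤ s := by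
    calc x * (x ^ 4 * (((x * Y) * x ^ (3 + 4 * r)) * (x * Y) ^ (2 * r)))
        = x ^ (9 + 6 * r) * Y ^ (2 * r + 1) := by
          rw [mul_pow, show 9 + 6 * r = 1 + 4 + 1 + 3 + 4 * r + 2 * r by ring]
          simp only [pow_add, pow_one]
          ring
      _ ≤ x ^ (9 + 6 * r) * (x ^ (r ^ 2)) ^ (2 * r + 1) := by gcongr
      _ = x ^ (9 + 6 * r + r ^ 2 + 2 * r ^ 3) := by
          rw [← pow_mul, ← pow_add]
          congr 1
          ring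
      _ ≤ s := by rw [hx]; exact_mod_cast hbig
  have t2 : x * (x ^ 4 * (((x * Y) * x ^ (3 + 4 * r)) * ((s / Y) * x ^ (2 * r ^ 2) *
      ((x * Y) * (x ^ 6) ^ r * (x ^ 6 / x ^ y) ^ m)))) ≤ s := by
    calc x * (x ^ 4 * (((x * Y) * x ^ (3 + 4 * r)) * ((s / Y) * x ^ (2 * r ^ 2) *
      ((x * Y) * (x ^ 6) ^ r * (x ^ 6 / x ^ y) ^ m))))
        = s * (Y * x ^ (10 + 10 * r + 2 * r ^ 2 + 6 * m) / x ^ (y * m)) := by
          rw [div_pow, ← pow_mul, ← pow_mul, ← pow_mul,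
            show 10 + 10 * r + 2 * r ^ 2 + 6 * m = 1 + 4 + 1 + (3 + 4 * r) + 2 * r ^ 2 + 1 + 6 * r + 6 * m
              by ring]
          simp only [pow_add, pow_one]
          field_simp
      _ ≤ s * (x ^ (r ^ 2) * x ^ (10 + 10 * r + 2 * r ^ 2 + 6 * m) / x ^ (y * m)) := by gcongr
      _ ≤ s * 1 := by
          gcongr
          rw [div_le_one (by positivity), ← pow_add]
          exact pow_le_pow_right₀ hx1 (by omega)
      _ = s := mul_one _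
  rw [← hx]
  have e : x ^ 4 * ((Heavy D s f A L M M' (L ^ 16) r m).card : ℝ) ≤
      x ^ 4 * (((x * Y) * x ^ (3 + 4 * r)) * (x * Y) ^ (2 * r)) +
      x ^ 4 * (((x * Y) * x ^ (3 + 4 * r)) * ((s / Y) * x ^ (2 * r ^ 2) *
        ((x * Y) * (x ^ 6) ^ r * (x ^ 6 / x ^ y) ^ m))) := by
    calc x ^ 4 * ((Heavy D s f A L M M' (L ^ 16) r m).card : ℝ)
        ≤ x ^ 4 * (((x * Y) * x ^ (3 + 4 * r)) *
      ((x * Y) ^ (2 * r) + (s / Y) * x ^ (2 * r ^ 2) * ((x * Y) * (x ^ 6) ^ r * (x ^ 6 / x ^ y) ^ m))) := by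
          gcongr
      _ = _ := by ring
  have p1 : 0 ≤ x ^ 4 * (((x * Y) * x ^ (3 + 4 * r)) * (x * Y) ^ (2 * r)) := by positivity
  have p2 : 0 ≤ x ^ 4 * (((x * Y) * x ^ (3 + 4 * r)) * ((s / Y) * x ^ (2 * r ^ 2) *
      ((x * Y) * (x ^ 6) ^ r * (x ^ 6 / x ^ y) ^ m))) := by positivity
  generalize x ^ 4 * (((x * Y) * x ^ (3 + 4 * r)) * (x * Y) ^ (2 * r)) = w1 at *
  generalize x ^ 4 * (((x * Y) * x ^ (3 + 4 * r)) * ((s / Y) * x ^ (2 * r ^ 2) *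
      ((x * Y) * (x ^ 6) ^ r * (x ^ 6 / x ^ y) ^ m))) = w2 at *
  nlinarith

end Pool.Agent.K9h6.GS
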