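import Pool.Agent.N60.FD.BAD
import Pool.Agent.N60.FD.REL
import Pool.Agent.N60.FD.NEAR
import Pool.Agent.N60.FD.FIB
import Pool.Agent.K9h6.GS.Grow
import Pool.Agent.K9h6.GS.Small

/-!
# The gcd recursion for prime triples: the contradiction
-/

set_option autoImplicit false

namespace Pool.Agent.K9h6.GS

open Finset Pool.Agent.R701.GD Pool.Agent.K9h6.GR Pool.Agent.N60.FD

variable {K D s N f : ℕ} {A : ℕ → ℕ}

/-- the bad steps are few -/
lemma small_bad (h : Dat K D s N f A) {L j : ℕ} (hL : 16 * K ^ 2 * D ≤ L) (hj : j + 2 ≤ L)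
    (hZ : (2 ^ j) ^ 2 * L ^ 18 ≤ s) :
    (L : ℝ) ^ 4 * (Bad D s f A L (L ^ 16) j).card ≤ s := by
  have hK := h.K1
  have hD := h.D2
  have hs1 := h.s1
  have hL32 : 32 ≤ L := by
    have : 1 ≤ K ^ 2 := Nat.one_le_pow _ _ hK
    nlinarith
  have hKK : K ≤ K ^ 2 := Nat.le_self_pow (by norm_num) K
  have hD16 : 16 * D ≤ L := by
    refine le_trans ?_ hL
    have : 1 ≤ K ^ 2 := Nat.one_le_pow _ _ hK
    nlinarith
  have hU : 4 * D * L < L ^ 16 := by
    calc 4 * D * L ≤ L * L := by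
          apply Nat.mul_le_mul_right
          omega
      _ = L ^ 2 := by ring
      _ < L ^ 16 := Nat.pow_lt_pow_right (by omega) (by norm_num)
  have hb := bad_main rel_main near_main fib_main K D s N f A h L (L ^ 16) j (by omega) hU
  have hbR : ((Bad D s f A L (L ^ 16) j).card : ℝ) ≤ 18 * (2 * L + 13) * (j + 2) *
      (8 * K * D + 8 * (L + 6) * D ^ 2) *
      (2 ^ j * ((12 + 256 * K ^ 3 * D * (8 * K * D + 8 * (L + 6) * D ^ 2)) * (L + 6) + 2 ^ (j + 1)) +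
        (L + 6) * ((256 * K ^ 3 * D * L * s / L ^ 16 : ℕ) + 2 ^ j)) := by
    have := hb
    unfold Pool.Agent.N60.FD.C1 at this
    exact_mod_cast this
  obtain ⟨x, hx⟩ : ∃ x : ℝ, x = L := ⟨_, rfl⟩
  obtain ⟨k, hk⟩ : ∃ k : ℝ, k = K := ⟨_, rfl⟩
  obtain ⟨d, hd⟩ : ∃ d : ℝ, d = D := ⟨_, rfl⟩
  obtain ⟨Z, hZd⟩ : ∃ Z : ℝ, Z = 2 ^ j := ⟨_, rfl⟩
  have hLR : 16 * k ^ 2 * d ≤ x := by rw [hk, hd, hx]; exact_mod_cast hL
  have hk1 : 1 ≤ k := by rw [hk]; exact_mod_cast hK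
  have hd2 : 2 ≤ d := by rw [hd]; exact_mod_cast hD
  have hk2 : 1 ≤ k ^ 2 := one_le_pow₀ hk1
  have hkk : k ≤ k ^ 2 := by nlinarith
  have e1 : 32 * k ^ 2 ≤ x := by nlinarith
  have e2 : 32 ≤ x := by linarith
  have e3 : k ≤ x / 32 := by linarith
  have e4 : k ^ 2 * d ≤ x / 16 := by linarith
  have e5 : d ≤ x / 16 := by nlinarith
  have e6 : k * d ≤ x / 16 := by nlinarith
  have x0 : 0 < x := by linarith
  have hx1 : 1 ≤ x := by linarith
  have hsR : (0 : ℝ) < s := by exact_mod_cast (show 0 < s by omega)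
  have hZ1 : 1 ≤ Z := by rw [hZd]; exact one_le_pow₀ (by norm_num)
  have hZR : Z ^ 2 * x ^ 18 ≤ s := by rw [hZd, hx]; exact_mod_cast hZ
  have hjR : (j : ℝ) + 2 ≤ x := by rw [hx]; exact_mod_cast hj
  have hdiv : ((256 * K ^ 3 * D * L * s / L ^ 16 : ℕ) : ℝ) ≤ x ^ 3 * s / x ^ 16 := by
    refine Nat.cast_div_le.trans ?_
    push_cast
    rw [← hx, ← hk, ← hd]
    gcongr
    calc 256 * k ^ 3 * d * x = 256 * (k ^ 2 * d) * k * x := by ring
      _ ≤ 256 * (x / 16) * (x / 32) * x := by gcongr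
      _ = x ^ 3 / 2 := by ring
      _ ≤ x ^ 3 := by have := pow_pos x0 3; linarith
  rw [← hx, ← hk, ← hd, pow_succ (2 : ℝ) j, ← hZd] at hbR
  have c1 : 8 * k * d + 8 * (x + 6) * d ^ 2 ≤ x ^ 3 := by
    calc 8 * k * d + 8 * (x + 6) * d ^ 2 = 8 * (k * d) + 8 * (x + 6) * (d * d) := by ring
      _ ≤ 8 * (x / 16) + 8 * (x + x) * ((x / 16) * (x / 16)) := by
          gcongr
          linarith
      _ = x / 2 + x ^ 3 / 16 := by ring
      _ ≤ x ^ 3 := by
          have : x ≤ x ^ 3 := by nlinarith [sq_nonneg x]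
          have := pow_pos x0 3
          linarith
  have c2 : 256 * k ^ 3 * d ≤ x ^ 2 := by
    calc 256 * k ^ 3 * d = 256 * (k ^ 2 * d) * k := by ring
      _ ≤ 256 * (x / 16) * (x / 32) := by gcongr
      _ = x ^ 2 / 2 := by ring
      _ ≤ x ^ 2 := by have := pow_pos x0 2; linarith
  have c3 : (12 + 256 * k ^ 3 * d * (8 * k * d + 8 * (x + 6) * d ^ 2)) * (x + 6) ≤ x ^ 7 := by
    have hx5 : 12 ≤ x ^ 5 := by
      have : x ^ 1 ≤ x ^ 5 := pow_le_pow_right₀ hx1 (by norm_num)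
      linarith [this, pow_one x]
    calc (12 + 256 * k ^ 3 * d * (8 * k * d + 8 * (x + 6) * d ^ 2)) * (x + 6)
        ≤ (x ^ 5 + x ^ 2 * x ^ 3) * (x + x) := by
          gcongr
          linarith
      _ = 4 * x ^ 6 := by ring
      _ ≤ x * x ^ 6 := by
          gcongr
          linarith
      _ = x ^ 7 := by ring
  have c4 : 18 * (2 * x + 13) ≤ 2 * x ^ 2 := by nlinarith
  have hmain : ((Bad D s f A L (L ^ 16) j).card : ℝ) ≤ (2 * x ^ 2) * x * x ^ 3 *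
      (Z * (x ^ 7 + Z * 2) + (x + x) * (x ^ 3 * s / x ^ 16 + Z)) := by
    refine hbR.trans ?_
    gcongr
    linarith
  rw [← hx]
  have t1 : x ^ 4 * ((2 * x ^ 2) * x * x ^ 3 * (Z * (x ^ 7 + Z * 2))) ≤ 1 / 4 * s := by
    have g1 : Z * (x ^ 7 + Z * 2) ≤ 3 * (Z ^ 2 * x ^ 7) := by
      have a1 : Z * x ^ 7 ≤ Z ^ 2 * x ^ 7 := by
        gcongr
        nlinarith
      have a2 : Z * (Z * 2) ≤ 2 * (Z ^ 2 * x ^ 7) := by
        have : 1 ≤ x ^ 7 := one_le_pow₀ hx1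
        nlinarith [sq_nonneg Z]
      linarith
    calc x ^ 4 * ((2 * x ^ 2) * x * x ^ 3 * (Z * (x ^ 7 + Z * 2)))
        ≤ x ^ 4 * ((2 * x ^ 2) * x * x ^ 3 * (3 * (Z ^ 2 * x ^ 7))) := by gcongr
      _ = 6 * (Z ^ 2 * x ^ 17) := by ring
      _ ≤ 1 / 4 * (Z ^ 2 * (x * x ^ 17)) := by
          have : 0 ≤ Z ^ 2 * x ^ 17 := by positivity
          nlinarith
      _ = 1 / 4 * (Z ^ 2 * x ^ 18) := by ring
      _ ≤ 1 / 4 * s := by gcongr
  have t2 : x ^ 4 * ((2 * x ^ 2) * x * x ^ 3 * ((x + x) * Z)) ≤ 1 / 4 * s := by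
    calc x ^ 4 * ((2 * x ^ 2) * x * x ^ 3 * ((x + x) * Z)) = 4 * (Z * x ^ 11) := by ring
      _ ≤ 1 / 4 * (Z ^ 2 * x ^ 18) := by
          have a1 : Z * x ^ 11 ≤ Z ^ 2 * x ^ 11 := by
            gcongr
            nlinarith
          have a2 : x ^ 18 = x ^ 7 * x ^ 11 := by ring
          have a3 : 32 ≤ x ^ 7 := by
            have : x ^ 1 ≤ x ^ 7 := pow_le_pow_right₀ hx1 (by norm_num)
            linarith [this, pow_one x]
          have a4 : 0 ≤ Z ^ 2 * x ^ 11 := by positivity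
          rw [a2]
          nlinarith
      _ ≤ 1 / 4 * s := by gcongr
  have t3 : x ^ 4 * ((2 * x ^ 2) * x * x ^ 3 * ((x + x) * (x ^ 3 * s / x ^ 16))) ≤ 1 / 4 * s := by
    have g1 : x ^ 4 * ((2 * x ^ 2) * x * x ^ 3 * ((x + x) * (x ^ 3 * s / x ^ 16))) =
        4 / x ^ 2 * (s : ℝ) := by
      field_simp
      ring
    have g2 : 4 / x ^ 2 ≤ 1 / 4 := by
      rw [div_le_div_iff₀ (by positivity) (by norm_num)]
      nlinarith
    rw [g1]
    exact mul_le_mul_of_nonneg_right g2 hsR.le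
  have e : x ^ 4 * ((Bad D s f A L (L ^ 16) j).card : ℝ) ≤
      x ^ 4 * ((2 * x ^ 2) * x * x ^ 3 * (Z * (x ^ 7 + Z * 2))) +
      x ^ 4 * ((2 * x ^ 2) * x * x ^ 3 * ((x + x) * Z)) +
      x ^ 4 * ((2 * x ^ 2) * x * x ^ 3 * ((x + x) * (x ^ 3 * s / x ^ 16))) := by
    calc x ^ 4 * ((Bad D s f A L (L ^ 16) j).card : ℝ)
        ≤ x ^ 4 * ((2 * x ^ 2) * x * x ^ 3 *
          (Z * (x ^ 7 + Z * 2) + (x + x) * (x ^ 3 * s / x ^ 16 + Z))) := by gcongr
      _ = _ := by ring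
  linarith

/-- few exceptions are impossible -/
lemma finish (h : Dat K D s N f A) {L M T : ℕ} (hL : 16 * K ^ 2 * D ≤ L) (hM0 : 8 * K * D ≤ M)
    (hLs : L ≤ s) (htot : (G D s f A M).card ≤ (f / L + 1) + L * T) (hTb : (L : ℝ) ^ 2 * T ≤ s) :
    False := by
  have hK := h.K1
  have hD := h.D2
  have hs1 := h.s1
  have hfK := h.fK
  have hmany := h.many M hM0
  obtain ⟨c1, c2, c3, -, -, -⟩ := consts hK hD hL (le_refl 1)
  have hsR : (0 : ℝ) < s := by exact_mod_cast (show 0 < s by omega)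
  have hmanyR : (s : ℝ) ≤ 4 * K * D * (G D s f A M).card := by exact_mod_cast hmany
  have htotR : ((G D s f A M).card : ℝ) ≤ (f / L : ℕ) + 1 + L * T := by exact_mod_cast htot
  have hfL : ((f / L : ℕ) : ℝ) ≤ K * s / L := by
    have hL0 : (0 : ℝ) < L := by linarith
    refine (Nat.cast_div_le).trans ?_
    gcongr
    exact_mod_cast hfK
  have hKD : (4 * K * D : ℝ) * (K * s / L) ≤ s / 4 := by
    have hL0 : (0 : ℝ) < L := by linarith
    have : (16 * K ^ 2 * D : ℝ) ≤ L := by exact_mod_cast hL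
    rw [mul_div_assoc', div_le_div_iff₀ hL0 (by norm_num)]
    nlinarith
  have hLs' : (L : ℝ) ≤ s := by exact_mod_cast hLs
  have h4 : (s : ℝ) ≤ s / 4 + s / 4 + s / 4 := by
    have hT0 : (0 : ℝ) ≤ T := Nat.cast_nonneg _
    calc (s : ℝ) ≤ 4 * K * D * ((f / L : ℕ) + 1 + L * T) := hmanyR.trans (by gcongr)
      _ ≤ 4 * K * D * (K * s / L + 1 + L * T) := by gcongr
      _ = 4 * K * D * (K * s / L) + 4 * K * D * 1 + 4 * K * D * (L * T) := by ring
      _ ≤ s / 4 + L / 4 * 1 + L / 4 * (L * T) := by gcongr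
      _ = s / 4 + L / 4 + (L : ℝ) ^ 2 * T / 4 := by ring
      _ ≤ s / 4 + s / 4 + s / 4 := by gcongr
  linarith

/-- no fast descent -/
theorem core2 (h : Dat K D s N f A) {L l : ℕ} (hL : 16 * K ^ 2 * D ≤ L)
    (hlog : 1 + Real.log s ≤ L) (hl1 : L < 2 ^ l) (hl2 : 2 ^ l ≤ L ^ 2)
    (hlL : 64 * (137 + 28 * l) ^ 2 * l + 2 ≤ L)
    (hbig : L ^ (1100 * (137 + 28 * l) ^ 3) ≤ s) : False := by
  classical
  have hK := h.K1
  have hD := h.D2
  have hs1 := h.s1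
  have hL32 : 32 ≤ L := by
    have : 1 ≤ K ^ 2 := Nat.one_le_pow _ _ hK
    nlinarith
  have hl0 : 1 ≤ l := by
    by_contra h0
    have : l = 0 := by omega
    rw [this] at hl1
    norm_num at hl1
    omega
  obtain ⟨m, hm⟩ : ∃ m, m = 137 + 28 * l := ⟨_, rfl⟩
  obtain ⟨r, hr⟩ : ∃ r, r = 8 * m := ⟨_, rfl⟩
  obtain ⟨y, hy⟩ : ∃ y, y = 200 * (m + 1) := ⟨_, rfl⟩
  obtain ⟨I, hI⟩ : ∃ I, I = 4 * l := ⟨_, rfl⟩
  obtain ⟨J, hJ⟩ : ∃ J, J = l * r ^ 2 := ⟨_, rfl⟩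
  obtain ⟨J₁, hJ₁⟩ : ∃ J₁, J₁ = Nat.log 8 (8 * m) + 1 := ⟨_, rfl⟩
  rw [← hm] at hlL hbig
  have h81 : 8 * m < 8 ^ J₁ := by rw [hJ₁]; exact Nat.lt_pow_succ_log_self (by norm_num) _
  have h82 : 8 ^ J₁ ≤ 64 * m := by
    rw [hJ₁, pow_succ]
    have := Nat.pow_log_le_self 8 (show 8 * m ≠ 0 by omega)
    omega
  have hJL : J + 2 ≤ L := by
    refine le_trans (le_of_eq ?_) hlL
    rw [hJ, hr]
    ring
  have hm165 : 165 ≤ m := by omega
  have hmm : m * m * 1 ≤ m * m * l := Nat.mul_le_mul_left _ hl0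
  have hmL : 64 * (m * m) + 2 ≤ L := by
    have e : 64 * m ^ 2 * l = 64 * (m * m * l) := by ring
    rw [e] at hlL
    omega
  have hm165' : 165 * m ≤ m * m := Nat.mul_le_mul_right _ hm165
  have hrL : r + 1 ≤ L := by omega
  have hIL : I ≤ L := by omega
  have hJ₁L : J₁ ≤ L := by
    have : J₁ < 8 ^ J₁ := Nat.lt_pow_self (by norm_num)
    omega
  -- the exponents
  obtain ⟨Ms, hMs⟩ : ∃ Ms : ℕ → ℕ, Ms = fun j => L ^ (137 * 8 ^ j) := ⟨_, rfl⟩
  obtain ⟨Ns, hNs⟩ : ∃ Ns : ℕ → ℕ, Ns = fun i => L ^ (137 * 8 ^ J₁ + i * y) := ⟨_, rfl⟩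
  have hMs1 : ∀ j, Ms (j + 1) = Ms j ^ 8 := by
    intro j
    rw [hMs]
    simp only
    rw [← pow_mul]
    congr 1
    ring
  have hNs1 : ∀ i, Ns (i + 1) = Ns i * L ^ y := by
    intro i
    rw [hNs]
    simp only
    rw [← pow_add]
    congr 1
    ring
  have hMN : Ms J₁ = Ns 0 := by
    rw [hMs, hNs]
    simp
  have hmonoM : ∀ j, Ms j ≤ Ms (j + 1) := by
    intro j
    rw [hMs1]
    exact Nat.le_self_pow (by norm_num) _
  have hmonoN : ∀ i, Ns i ≤ Ns (i + 1) := by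
    intro i
    rw [hNs1]
    exact Nat.le_mul_of_pos_right _ (by positivity)
  have hMge : ∀ j, L ^ 137 ≤ Ms j := by
    intro j
    rw [hMs]
    exact Nat.pow_le_pow_right (by omega) (Nat.le_mul_of_pos_right _ (by positivity))
  -- the last exponent
  have hIy : I * y = 800 * (l * m) + 800 * l := by rw [hI, hy]; ring
  have hlm : 28 * (l * m) + 137 * m = m * m := by rw [hm]; ring
  have hr2 : r ^ 2 = 64 * (m * m) := by rw [hr]; ring
  have hlast : 137 * 8 ^ J₁ + I * y ≤ r ^ 2 := by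
    rw [hIy, hr2]
    have : l ≤ l * m := Nat.le_mul_of_pos_right _ (by omega)
    omega
  have hNlast : ∀ i, i ≤ I → Ns i ≤ L ^ (r ^ 2) := by
    intro i hi
    rw [hNs]
    refine Nat.pow_le_pow_right (by omega) (le_trans ?_ hlast)
    exact Nat.add_le_add_left (Nat.mul_le_mul_right _ hi) _
  have hNJ : Ns I ≤ 2 ^ J := by
    refine (hNlast I le_rfl).trans ?_
    rw [hJ, pow_mul]
    exact Nat.pow_le_pow_left hl1.le _
  -- the size of `s`
  have hm3 : m * m * 165 ≤ m * m * m := Nat.mul_le_mul_left _ hm165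
  have hbig1 : L ^ (9 + 6 * r + r ^ 2 + 2 * r ^ 3) ≤ s := by
    refine le_trans (Nat.pow_le_pow_right (by omega) ?_) hbig
    have e1 : r ^ 3 = 512 * (m * m * m) := by rw [hr]; ring
    have e2 : 1100 * m ^ 3 = 1100 * (m * m * m) := by ring
    rw [e1, hr2, e2, hr]
    omega
  have hLs : L ≤ s := (Nat.le_self_pow (by positivity) L).trans hbig
  have hRare : ∀ j < J₁, ∀ r' < 7,
      (L : ℝ) ^ 4 * (Rr D s f A L (Ms j) (Ms (j + 1)) r').card ≤ s := by
    intro j hj r' hr'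
    rw [hMs1]
    refine small_Rr (R := 7) h hL (by norm_num) (by omega) hr' (by
      have := hMge j
      norm_num
      exact this) ?_ hlog
    calc Ms j ^ (8 * (7 + 1)) = L ^ (137 * 8 ^ (j + 1) * 8) := by
          rw [hMs]
          simp only
          rw [← pow_mul]
          congr 1
          ring
      _ ≤ L ^ (1100 * m ^ 3) := by
          refine Nat.pow_le_pow_right (by omega) ?_
          have g1 : 8 ^ (j + 1) ≤ 8 ^ J₁ := Nat.pow_le_pow_right (by norm_num) (by omega)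
          have e2 : 1100 * m ^ 3 = 1100 * (m * m * m) := by ring
          rw [e2]
          omega
      _ ≤ s := hbig
  have hBad : ∀ j < J, (L : ℝ) ^ 4 * (Bad D s f A L (L ^ 16) j).card ≤ s := by
    intro j hj
    refine small_bad h hL (by omega) ?_
    calc (2 ^ j) ^ 2 * L ^ 18 ≤ (2 ^ J) ^ 2 * L ^ 18 := by
          gcongr
          norm_num
      _ ≤ ((L ^ 2) ^ (r ^ 2)) ^ 2 * L ^ 18 := by
          rw [hJ, pow_mul]
          gcongr
      _ = L ^ (4 * r ^ 2 + 18) := by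
          rw [← pow_mul, ← pow_mul, ← pow_add]
          congr 1
          ring
      _ ≤ L ^ (1100 * m ^ 3) := by
          refine Nat.pow_le_pow_right (by omega) ?_
          have e2 : 1100 * m ^ 3 = 1100 * (m * m * m) := by ring
          rw [hr2, e2]
          omega
      _ ≤ s := hbig
  have hHeavy : ∀ i < I, (L : ℝ) ^ 4 * (Heavy D s f A L (Ns i) (Ns (i + 1)) (L ^ 16) r m).card ≤ s := by
    intro i hi
    have h1 := hNlast (i + 1) (by omega)
    rw [hNs1] at h1 ⊢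
    refine small_heavy h hL (by omega) hrL ?_ h1 (by omega) ?_ hbig1
    · rw [hNs, ← pow_add]
      refine Nat.pow_le_pow_right (by omega) ?_
      have : 0 ≤ i * y := Nat.zero_le _
      omega
    · have e1 : y * m = 200 * (m * m) + 200 * m := by rw [hy]; ring
      have e2 : r ^ 2 = 64 * (m * m) := hr2
      rw [e1, e2, hr]
      omega
  -- the exceptions
  obtain ⟨X1, hX1⟩ : ∃ X1, X1 = (range J₁).biUnion (fun j => Rare D s f A L (Ms j) (Ms (j + 1)) 7) :=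
    ⟨_, rfl⟩
  obtain ⟨X2, hX2⟩ : ∃ X2, X2 = (range J).biUnion (fun j => Bad D s f A L (L ^ 16) j) := ⟨_, rfl⟩
  obtain ⟨X3, hX3⟩ : ∃ X3, X3 = (range I).biUnion
    (fun i => Heavy D s f A L (Ns i) (Ns (i + 1)) (L ^ 16) r m) := ⟨_, rfl⟩
  have hex : ∀ n ∈ G D s f A (Ms 0), ∀ n' ∈ G D s f A (Ms 0), n < n' → n' ≤ n + L →
      ∃ k ∈ X1 ∪ (X2 ∪ X3), n ≤ k ∧ k < n' := by
    intro n hn n' hn' hlt hle
    by_contra hcon
    push Not at hcon
    have hcon' : ∀ k, n ≤ k → k < n' → k ∉ X1 ∪ (X2 ∪ X3) := by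
      intro k hk1 hk2 hk3
      have := hcon k hk3 hk1
      omega
    have hn1 : ∀ k, n ≤ k → k < n' → ∀ j < J₁, k ∉ Rare D s f A L (Ms j) (Ms (j + 1)) 7 := by
      intro k hk1 hk2 j hj hk3
      apply hcon' k hk1 hk2
      rw [mem_union, hX1, mem_biUnion]
      exact Or.inl ⟨j, mem_range.2 hj, hk3⟩
    have hn2 : ∀ k, n ≤ k → k < n' → ∀ j < J, k ∉ Bad D s f A L (L ^ 16) j := by
      intro k hk1 hk2 j hj hk3
      apply hcon' k hk1 hk2
      rw [mem_union, mem_union, hX2, mem_biUnion]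
      exact Or.inr (Or.inl ⟨j, mem_range.2 hj, hk3⟩)
    have hn3 : ∀ k, n ≤ k → k < n' → ∀ i < I,
        k ∉ Heavy D s f A L (Ns i) (Ns (i + 1)) (L ^ 16) (8 * m) m := by
      intro k hk1 hk2 i hi hk3
      apply hcon' k hk1 hk2
      rw [mem_union, mem_union, hX3, mem_biUnion]
      exact Or.inr (Or.inr ⟨i, mem_range.2 hi, by rw [hr]; exact hk3⟩)
    have p1 := phase1 (R := 7) Ms hmonoM J₁ hn hn' hlt hle hn1 J₁ le_rfl
    rw [hMN] at p1
    norm_num at p1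
    have p2 := phase2_iter (D := D) (s := s) (f := f) (A := A) Ns (by omega : 1 ≤ m) hmonoN hNJ
      (Nat.one_le_pow _ _ (by omega)) hle hn2 hn3 (by omega) I le_rfl
    have p3 : cnt D s f A (Ns I) n n' ≤ L := cnt_le.trans (by omega)
    have p4 : 4 ^ I * L < 5 ^ I := by
      rw [hI]
      calc 4 ^ (4 * l) * L < 4 ^ (4 * l) * 2 ^ l := by gcongr
        _ = 512 ^ l := by
            rw [pow_mul, ← mul_pow]
            norm_num
        _ ≤ 625 ^ l := Nat.pow_le_pow_left (by norm_num) l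
        _ = 5 ^ (4 * l) := by
            rw [pow_mul]
            norm_num
    have p5 : 5 ^ I * 1 ≤ 5 ^ I * cnt D s f A (Ns 0) n n' := Nat.mul_le_mul_left _ (by omega)
    have p6 : 4 ^ I * cnt D s f A (Ns I) n n' ≤ 4 ^ I * L := Nat.mul_le_mul_left _ p3
    omega
  have htot := total_of (L := L) (F := f) (by omega) (G D s f A (Ms 0)) (X1 ∪ (X2 ∪ X3))
    (fun n hn => (mem_W.1 (mem_G.1 hn).1).1.2) hex
  refine finish h (M := Ms 0) (T := (X1 ∪ (X2 ∪ X3)).card) hL ?_ hLs htot ?_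
  · have hKK : K ≤ K ^ 2 := Nat.le_self_pow (by norm_num) K
    calc 8 * K * D ≤ 16 * K ^ 2 * D :=
          Nat.mul_le_mul_right _ (Nat.mul_le_mul (by norm_num) hKK)
      _ ≤ L := hL
      _ ≤ L ^ 137 := Nat.le_self_pow (by norm_num) L
      _ ≤ Ms 0 := hMge 0
  · -- the sizes
    have hsR : (0 : ℝ) < s := by exact_mod_cast (show 0 < s by omega)
    have hLR : (0 : ℝ) < L := by exact_mod_cast (show 0 < L by omega)
    have c1 : (L : ℝ) ^ 4 * X1.card ≤ (J₁ : ℝ) * (7 * s) := by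
      have g1 : (X1.card : ℝ) ≤ ∑ j ∈ range J₁, ∑ r' ∈ range 7,
          ((Rr D s f A L (Ms j) (Ms (j + 1)) r').card : ℝ) := by
        have : X1.card ≤ ∑ j ∈ range J₁, ∑ r' ∈ range 7,
            (Rr D s f A L (Ms j) (Ms (j + 1)) r').card := by
          rw [hX1]
          refine card_biUnion_le.trans (sum_le_sum fun j _ => ?_)
          unfold Rare
          exact card_biUnion_le
        exact_mod_cast this
      calc (L : ℝ) ^ 4 * X1.card ≤ (L : ℝ) ^ 4 * ∑ j ∈ range J₁, ∑ r' ∈ range 7,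
            ((Rr D s f A L (Ms j) (Ms (j + 1)) r').card : ℝ) := by gcongr
        _ = ∑ j ∈ range J₁, ∑ r' ∈ range 7,
            (L : ℝ) ^ 4 * ((Rr D s f A L (Ms j) (Ms (j + 1)) r').card : ℝ) := by
            rw [mul_sum]
            exact sum_congr rfl fun j _ => mul_sum _ _ _
        _ ≤ ∑ j ∈ range J₁, ∑ r' ∈ range 7, (s : ℝ) :=
            sum_le_sum fun j hj => sum_le_sum fun r' hr' =>
              hRare j (mem_range.1 hj) r' (mem_range.1 hr')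
        _ = (J₁ : ℝ) * (7 * s) := by
            simp only [sum_const, card_range, nsmul_eq_mul]
            norm_num
    have c2 : (L : ℝ) ^ 4 * X2.card ≤ (J : ℝ) * s := by
      have g1 : (X2.card : ℝ) ≤ ∑ j ∈ range J, ((Bad D s f A L (L ^ 16) j).card : ℝ) := by
        have : X2.card ≤ ∑ j ∈ range J, (Bad D s f A L (L ^ 16) j).card := by
          rw [hX2]
          exact card_biUnion_le
        exact_mod_cast this
      calc (L : ℝ) ^ 4 * X2.card ≤ (L : ℝ) ^ 4 * ∑ j ∈ range J,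
            ((Bad D s f A L (L ^ 16) j).card : ℝ) := by gcongr
        _ = ∑ j ∈ range J, (L : ℝ) ^ 4 * ((Bad D s f A L (L ^ 16) j).card : ℝ) := mul_sum _ _ _
        _ ≤ ∑ j ∈ range J, (s : ℝ) := sum_le_sum fun j hj => hBad j (mem_range.1 hj)
        _ = (J : ℝ) * s := by
            simp only [sum_const, card_range, nsmul_eq_mul]
    have c3 : (L : ℝ) ^ 4 * X3.card ≤ (I : ℝ) * s := by
      have g1 : (X3.card : ℝ) ≤ ∑ i ∈ range I,
          ((Heavy D s f A L (Ns i) (Ns (i + 1)) (L ^ 16) r m).card : ℝ) := by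
        have : X3.card ≤ ∑ i ∈ range I, (Heavy D s f A L (Ns i) (Ns (i + 1)) (L ^ 16) r m).card := by
          rw [hX3]
          exact card_biUnion_le
        exact_mod_cast this
      calc (L : ℝ) ^ 4 * X3.card ≤ (L : ℝ) ^ 4 * ∑ i ∈ range I,
            ((Heavy D s f A L (Ns i) (Ns (i + 1)) (L ^ 16) r m).card : ℝ) := by gcongr
        _ = ∑ i ∈ range I, (L : ℝ) ^ 4 *
            ((Heavy D s f A L (Ns i) (Ns (i + 1)) (L ^ 16) r m).card : ℝ) := mul_sum _ _ _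
        _ ≤ ∑ i ∈ range I, (s : ℝ) := sum_le_sum fun i hi => hHeavy i (mem_range.1 hi)
        _ = (I : ℝ) * s := by
            simp only [sum_const, card_range, nsmul_eq_mul]
    have c4 : ((X1 ∪ (X2 ∪ X3)).card : ℝ) ≤ X1.card + (X2.card + X3.card) := by
      have : (X1 ∪ (X2 ∪ X3)).card ≤ X1.card + (X2.card + X3.card) :=
        (card_union_le _ _).trans (Nat.add_le_add_left (card_union_le _ _) _)
      exact_mod_cast this
    have hJ₁R : (J₁ : ℝ) ≤ L := by exact_mod_cast hJ₁L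
    have hJR : (J : ℝ) ≤ L := by exact_mod_cast (show J ≤ L by omega)
    have hIR : (I : ℝ) ≤ L := by exact_mod_cast hIL
    have hL9 : (9 : ℝ) ≤ L := by exact_mod_cast (show 9 ≤ L by omega)
    have c5 : (L : ℝ) ^ 4 * ((X1 ∪ (X2 ∪ X3)).card : ℝ) ≤ (L : ℝ) ^ 2 * s := by
      calc (L : ℝ) ^ 4 * ((X1 ∪ (X2 ∪ X3)).card : ℝ)
          ≤ (L : ℝ) ^ 4 * (X1.card + (X2.card + X3.card)) := by gcongr
        _ = (L : ℝ) ^ 4 * X1.card + ((L : ℝ) ^ 4 * X2.card + (L : ℝ) ^ 4 * X3.card) := by ring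
        _ ≤ (J₁ : ℝ) * (7 * s) + ((J : ℝ) * s + (I : ℝ) * s) := by gcongr
        _ ≤ (L : ℝ) * (7 * s) + ((L : ℝ) * s + (L : ℝ) * s) := by gcongr
        _ = 9 * ((L : ℝ) * s) := by ring
        _ ≤ L * ((L : ℝ) * s) := by gcongr
        _ = (L : ℝ) ^ 2 * s := by ring
    have c6 : (L : ℝ) ^ 2 * ((L : ℝ) ^ 2 * ((X1 ∪ (X2 ∪ X3)).card : ℝ)) ≤ (L : ℝ) ^ 2 * s := by
      calc (L : ℝ) ^ 2 * ((L : ℝ) ^ 2 * ((X1 ∪ (X2 ∪ X3)).card : ℝ))
          = (L : ℝ) ^ 4 * ((X1 ∪ (X2 ∪ X3)).card : ℝ) := by ring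
        _ ≤ _ := c5
    exact le_of_mul_le_mul_left c6 (by positivity)

end Pool.Agent.K9h6.GS
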