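import Mathlib

/-!
# The gcd recursion for prime triples: separated fractions and trees of labels
-/

set_option autoImplicit false

namespace Pool.Agent.K9h6.GS

open Finset

/-- points of an interval, with weights such that near points have large weights -/
lemma sum_inv_sep {ι : Type*} [DecidableEq ι] (ψ μ : ι → ℝ) (Y D₀ α : ℝ) (hD : 0 < D₀) :
    ∀ (n : ℕ) (P : Finset ι), P.card = n → (∀ i ∈ P, D₀ ≤ μ i ∧ μ i ≤ Y) →
      (∀ i ∈ P, ∀ j ∈ P, i ≠ j → 1 / (μ i * μ j) ≤ |ψ i - ψ j|) →
      ∀ β : ℝ, α ≤ β → (∀ i ∈ P, α ≤ ψ i ∧ ψ i ≤ β) → 0 ≤ Y →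
        ∑ i ∈ P, 1 / μ i ≤ 1 / D₀ + Y * (β - α) := by
  intro n
  induction n with
  | zero =>
    intro P hP _ _ β hβ _ hY
    rw [card_eq_zero] at hP
    rw [hP, sum_empty]
    have : 0 ≤ Y * (β - α) := mul_nonneg hY (by linarith)
    positivity
  | succ n ih =>
    intro P hP hμ hsep β hβ hin hY
    have hne : P.Nonempty := card_pos.1 (by omega)
    obtain ⟨a, ha, hmax⟩ := P.exists_max_image ψ hne
    have hP' : (P.erase a).card = n := by rw [card_erase_of_mem ha]; omega
    have hsum : ∑ i ∈ P, 1 / μ i = ∑ i ∈ P.erase a, 1 / μ i + 1 / μ a := by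
      rw [sum_erase_add _ _ ha]
    rcases (P.erase a).eq_empty_or_nonempty with he | hne'
    · rw [hsum, he, sum_empty, zero_add]
      have h1 : 1 / μ a ≤ 1 / D₀ := one_div_le_one_div_of_le hD (hμ a ha).1
      have : 0 ≤ Y * (β - α) := mul_nonneg hY (by linarith)
      linarith
    · obtain ⟨c, hc, hmax'⟩ := (P.erase a).exists_max_image ψ hne'
      have hcP := mem_of_mem_erase hc
      have hca : c ≠ a := ne_of_mem_erase hc
      have h1 := ih (P.erase a) hP' (fun i hi => hμ i (mem_of_mem_erase hi))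
        (fun i hi j hj => hsep i (mem_of_mem_erase hi) j (mem_of_mem_erase hj)) (ψ c)
        (hin c hcP).1 (fun i hi => ⟨(hin i (mem_of_mem_erase hi)).1, hmax' i hi⟩) hY
      have h2 := hsep a ha c hcP hca.symm
      have h3 : ψ c ≤ ψ a := hmax c hcP
      rw [abs_of_nonneg (by linarith)] at h2
      have hμa : 0 < μ a := by linarith [(hμ a ha).1]
      have hμc : 0 < μ c := by linarith [(hμ c hcP).1]
      have h4 : 1 / μ a ≤ Y * (1 / (μ a * μ c)) := by
        rw [mul_one_div, div_le_div_iff₀ hμa (by positivity)]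
        nlinarith [(hμ c hcP).2]
      have h5 : Y * (1 / (μ a * μ c)) ≤ Y * (ψ a - ψ c) := mul_le_mul_of_nonneg_left h2 hY
      have h6 : Y * (ψ a) ≤ Y * β := mul_le_mul_of_nonneg_left (hin a ha).2 hY
      rw [hsum]
      nlinarith

/-- different reduced fractions are separated modulo `1` -/
lemma frac_sep {a m a' m' : ℕ} (h1 : Nat.Coprime a m) (h2 : Nat.Coprime a' m') (h3 : a < m)
    (h4 : a' < m') (hne : (a, m) ≠ (a', m')) (j : ℤ) :
    1 / ((m : ℝ) * m') ≤ |(a : ℝ) / m - (a' : ℝ) / m' - j| := by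
  have hm : (0 : ℝ) < m := by exact_mod_cast (show 0 < m by omega)
  have hm' : (0 : ℝ) < m' := by exact_mod_cast (show 0 < m' by omega)
  have e : (a : ℝ) / m - (a' : ℝ) / m' - j = ((a * m' - a' * m - j * (m * m') : ℤ) : ℝ) / (m * m') := by
    push_cast
    field_simp
  rw [e, abs_div, abs_of_pos (a := (m : ℝ) * m') (by positivity)]
  apply div_le_div_of_nonneg_right _ (by positivity)
  have hnz : (a * m' - a' * m - j * (m * m') : ℤ) ≠ 0 := by
    intro h0
    apply hne
    -- first `m ∣ m'` and `m' ∣ m`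
    have d1 : (m : ℤ) ∣ (m' : ℤ) := by
      have hd : (m : ℤ) ∣ (a : ℤ) * m' := ⟨a' + j * m', by linarith⟩
      have hc : IsCoprime (m : ℤ) (a : ℤ) := by
        rw [Nat.isCoprime_iff_coprime]
        exact h1.symm
      exact hc.dvd_of_dvd_mul_left hd
    have d2 : (m' : ℤ) ∣ (m : ℤ) := by
      have hd : (m' : ℤ) ∣ (a' : ℤ) * m := ⟨a - j * m, by linarith⟩
      have hc : IsCoprime (m' : ℤ) (a' : ℤ) := by
        rw [Nat.isCoprime_iff_coprime]
        exact h2.symm
      exact hc.dvd_of_dvd_mul_left hd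
    have hmm : m = m' := Nat.dvd_antisymm (by exact_mod_cast d1) (by exact_mod_cast d2)
    subst hmm
    have hm0 : (m : ℤ) ≠ 0 := by
      have : 0 < m := by omega
      exact_mod_cast this.ne'
    have h5 : (a : ℤ) - a' = j * m := by
      have h6 : (m : ℤ) * ((a : ℤ) - a') = m * (j * m) := by linarith
      exact mul_left_cancel₀ hm0 h6
    have hj : j = 0 := by
      by_contra hj
      rcases lt_or_gt_of_ne hj with hj | hj
      · have : j ≤ -1 := by omega
        nlinarith [(show (0 : ℤ) < m by exact_mod_cast (show 0 < m by omega))]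
      · have : 1 ≤ j := by omega
        nlinarith [(show (0 : ℤ) < m by exact_mod_cast (show 0 < m by omega))]
    rw [hj] at h5
    have : a = a' := by
      have : (a : ℤ) = a' := by linarith
      exact_mod_cast this
    rw [this]
  have := Int.one_le_abs hnz
  exact_mod_cast this

/-- counting the leaves of a tree of labels -/
lemma tree_count {ι β : Type*} [DecidableEq ι] [DecidableEq β] (E : Finset ι) (l : ℕ → ι → β)
    (ω : ℕ → β → ℝ) (W : ℕ → ℝ) (C Λ : ℝ) (ρ : ℕ) (hω : ∀ i b, 0 ≤ ω i b) (hW0 : ∀ i, 0 ≤ W i)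
    (hC0 : 0 ≤ C) (hΛ : 0 ≤ Λ)
    (hC : ∀ j < ρ, ∀ e₀ ∈ E, (((E.filter (fun e => ∀ i < j, l i e = l i e₀)).image (l j)).card : ℝ) ≤ C)
    (hW : ∀ j < ρ, ∀ e₀ ∈ E,
      ∑ b ∈ (E.filter (fun e => ∀ i < j, l i e = l i e₀)).image (l j), ω j b ≤ W j)
    (hleaf : ∀ e₀ ∈ E, ((E.filter (fun e => ∀ i < ρ, l i e = l i e₀)).card : ℝ) ≤
      1 + Λ * ∏ i ∈ range ρ, ω i (l i e₀)) :
    (E.card : ℝ) ≤ C ^ ρ + Λ * ∏ i ∈ range ρ, W i := by
  have key : ∀ d j, j + d = ρ → ∀ e₀ ∈ E,
      ((E.filter (fun e => ∀ i < j, l i e = l i e₀)).card : ℝ) ≤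
        C ^ d + Λ * ((∏ i ∈ range j, ω i (l i e₀)) * ∏ i ∈ Ico j ρ, W i) := by
    intro d
    induction d with
    | zero =>
      intro j hj e₀ he₀
      have : j = ρ := by omega
      subst this
      simpa using hleaf e₀ he₀
    | succ d ih =>
      intro j hj e₀ he₀
      have hjρ : j < ρ := by omega
      set F := E.filter (fun e => ∀ i < j, l i e = l i e₀) with hF
      have hfib : ∀ b ∈ F.image (l j), ((F.filter (fun e => l j e = b)).card : ℝ) ≤
          C ^ d + Λ * (((∏ i ∈ range j, ω i (l i e₀)) * ω j b) * ∏ i ∈ Ico (j + 1) ρ, W i) := by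
        intro b hb
        rw [mem_image] at hb
        obtain ⟨e₁, he₁, rfl⟩ := hb
        rw [hF, mem_filter] at he₁
        have h1 := ih (j + 1) (by omega) e₁ he₁.1
        have hsub : F.filter (fun e => l j e = l j e₁) ⊆
            E.filter (fun e => ∀ i < j + 1, l i e = l i e₁) := by
          intro e he
          rw [mem_filter, hF, mem_filter] at he
          rw [mem_filter]
          refine ⟨he.1.1, fun i hi => ?_⟩
          rcases Nat.lt_succ_iff_lt_or_eq.1 hi with h | h
          · rw [he.1.2 i h, he₁.2 i h]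
          · rw [h]; exact he.2
        have h2 : ((F.filter (fun e => l j e = l j e₁)).card : ℝ) ≤
            ((E.filter (fun e => ∀ i < j + 1, l i e = l i e₁)).card : ℝ) := by
          exact_mod_cast card_le_card hsub
        refine h2.trans (h1.trans (le_of_eq ?_))
        rw [prod_range_succ]
        congr 2
        congr 1
        congr 1
        apply prod_congr rfl
        intro i hi
        rw [he₁.2 i (mem_range.1 hi)]
      have hcard : (F.card : ℝ) = ∑ b ∈ F.image (l j), ((F.filter (fun e => l j e = b)).card : ℝ) := by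
        have := card_eq_sum_card_image (l j) F
        exact_mod_cast this
      rw [hcard]
      have hIco : ∏ i ∈ Ico j ρ, W i = W j * ∏ i ∈ Ico (j + 1) ρ, W i := by
        rw [← prod_eq_prod_Ico_succ_bot hjρ]
      have hp1 : 0 ≤ ∏ i ∈ range j, ω i (l i e₀) := prod_nonneg fun i _ => hω _ _
      have hp2 : 0 ≤ ∏ i ∈ Ico (j + 1) ρ, W i := prod_nonneg fun i _ => hW0 _
      calc ∑ b ∈ F.image (l j), ((F.filter (fun e => l j e = b)).card : ℝ)
          ≤ ∑ b ∈ F.image (l j), (C ^ d + Λ * (((∏ i ∈ range j, ω i (l i e₀)) * ω j b) *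
            ∏ i ∈ Ico (j + 1) ρ, W i)) := sum_le_sum hfib
        _ = (F.image (l j)).card * C ^ d + Λ * ((∏ i ∈ range j, ω i (l i e₀)) *
            ((∑ b ∈ F.image (l j), ω j b) * ∏ i ∈ Ico (j + 1) ρ, W i)) := by
            rw [sum_add_distrib, sum_const, nsmul_eq_mul, sum_mul, mul_sum, mul_sum]
            congr 1
            apply sum_congr rfl
            intro b _
            ring
        _ ≤ C * C ^ d + Λ * ((∏ i ∈ range j, ω i (l i e₀)) *
            (W j * ∏ i ∈ Ico (j + 1) ρ, W i)) := by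
            have a1 := hC j hjρ e₀ he₀
            have a2 := hW j hjρ e₀ he₀
            gcongr
        _ = _ := by rw [hIco, pow_succ]; ring
  rcases E.eq_empty_or_nonempty with he | ⟨e₀, he₀⟩
  · rw [he]
    have : 0 ≤ ∏ i ∈ range ρ, W i := prod_nonneg fun i _ => hW0 _
    simp only [card_empty, Nat.cast_zero]
    positivity
  · have := key ρ 0 (by omega) e₀ he₀
    simpa using this

end Pool.Agent.K9h6.GS
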