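import Pool.Agent.K9h6.GR.Near
import Pool.Agent.K9h6.GS.Frac

/-!
# The gcd recursion for prime triples: the fractions `A n / v n` along a block
-/

set_option autoImplicit false

namespace Pool.Agent.K9h6.GS

open Finset Pool.Agent.R701.GD Pool.Agent.K9h6.GR

variable {K D s N f : ℕ} {A : ℕ → ℕ}

/-- the label of a step: the reduced fraction `A n / v n` modulo `1` -/
def Lab (A : ℕ → ℕ) (n : ℕ) : ℕ × ℕ := ((A n / g A n) % (v n / g A n), v n / g A n)

lemma v_pos {n : ℕ} (hn : 1 ≤ n) : 0 < v n := by have := le_v n; omega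

lemma g_pos' {n : ℕ} (hn : 1 ≤ n) : 0 < g A n := by
  unfold g
  exact Nat.gcd_pos_of_pos_right _ (v_pos hn)

lemma lab_pos {n : ℕ} (hn : 1 ≤ n) : 1 ≤ (Lab A n).2 := by
  unfold Lab
  exact Nat.div_pos (Nat.le_of_dvd (v_pos hn) (g_dvd_v n)) (g_pos' hn)

lemma lab_lt {n : ℕ} (hn : 1 ≤ n) : (Lab A n).1 < (Lab A n).2 :=
  Nat.mod_lt _ (lab_pos hn)

lemma lab_coprime {n : ℕ} (hn : 1 ≤ n) : Nat.Coprime (Lab A n).1 (Lab A n).2 := by
  have hg := g_pos' (A := A) hn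
  have h1 : Nat.Coprime (A n / g A n) (v n / g A n) := by
    unfold g at hg ⊢
    exact Nat.coprime_div_gcd_div_gcd hg
  unfold Lab
  show Nat.gcd ((A n / g A n) % (v n / g A n)) (v n / g A n) = 1
  rw [← Nat.gcd_rec, Nat.gcd_comm]
  exact h1

lemma v_eq_lab {n : ℕ} : v n = g A n * (Lab A n).2 :=
  (Nat.mul_div_cancel' (g_dvd_v n)).symm

/-- `A n / v n` is congruent to the fraction of the label -/
lemma x_eq {n : ℕ} (hn : 1 ≤ n) :
    (A n : ℝ) / v n = ((Lab A n).1 : ℝ) / (Lab A n).2 + (((A n / g A n) / (v n / g A n) : ℕ) : ℝ) := by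
  have hg : (0 : ℝ) < g A n := by exact_mod_cast g_pos' (A := A) hn
  have hμ : (0 : ℝ) < (Lab A n).2 := by
    have := lab_pos (A := A) hn
    exact_mod_cast (show 0 < (Lab A n).2 by omega)
  have e1 : (A n : ℝ) = g A n * ((A n / g A n : ℕ) : ℝ) := by
    exact_mod_cast (Nat.mul_div_cancel' (g_dvd_A n)).symm
  have e2 : (v n : ℝ) = g A n * ((Lab A n).2 : ℝ) := by exact_mod_cast v_eq_lab (A := A) (n := n)
  have e3 : ((A n / g A n : ℕ) : ℝ) = ((Lab A n).2 : ℝ) * (((A n / g A n) / (v n / g A n) : ℕ) : ℝ) +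
      ((Lab A n).1 : ℝ) := by
    have := Nat.div_add_mod (A n / g A n) (v n / g A n)
    unfold Lab
    exact_mod_cast this.symm
  rw [e2]
  nth_rewrite 1 [e1]
  rw [mul_div_mul_left _ _ hg.ne', e3]
  field_simp
  ring

/-- variation of `a / (V₁ V₂)` -/
lemma var_bound (s K D a a₂ V₁ V₂ d : ℝ) (hs : 0 < s) (hK : 1 ≤ K) (hD : 1 ≤ D) (hd : 0 ≤ d)
    (h1 : s ≤ 2 * D * V₁) (h2 : s ≤ 2 * D * V₂) (ha2 : a₂ ≤ a) (ha0 : 0 ≤ a₂) (haN : a ≤ 2 * s ^ 2)
    (hdiff : a - a₂ ≤ d * (2 * (K * s))) :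
    |a / (V₁ * V₂) - a₂ / ((V₁ + d) * (V₂ + d))| ≤ 40 * K * D ^ 3 * d / s := by
  have hD0 : 0 < D := by linarith
  have hV₁ : 0 < V₁ := by
    by_contra hc
    push Not at hc
    have : 2 * D * V₁ ≤ 0 := by nlinarith
    linarith
  have hV₂ : 0 < V₂ := by
    by_contra hc
    push Not at hc
    have : 2 * D * V₂ ≤ 0 := by nlinarith
    linarith
  have i1 : 1 / V₁ ≤ 2 * D / s := by rw [div_le_div_iff₀ hV₁ hs]; linarith
  have i2 : 1 / V₂ ≤ 2 * D / s := by rw [div_le_div_iff₀ hV₂ hs]; linarith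
  have i3 : 1 / (V₁ + d) ≤ 2 * D / s := by
    rw [div_le_div_iff₀ (by linarith) hs]; nlinarith
  have i4 : 1 / (V₂ + d) ≤ 2 * D / s := by
    rw [div_le_div_iff₀ (by linarith) hs]; nlinarith
  have p1 : 0 < 1 / V₁ := by positivity
  have p2 : 0 < 1 / V₂ := by positivity
  have p3 : 0 < 1 / (V₁ + d) := by positivity
  have p4 : 0 < 1 / (V₂ + d) := by positivity
  have e : a / (V₁ * V₂) - a₂ / ((V₁ + d) * (V₂ + d)) =
      (a - a₂) * ((1 / (V₁ + d)) * (1 / (V₂ + d))) +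
        a * d * ((1 / V₂) * (1 / (V₁ + d)) * (1 / (V₂ + d)) + (1 / V₁) * (1 / V₂) * (1 / (V₁ + d))) := by
    field_simp
    ring
  have b1 : (a - a₂) * ((1 / (V₁ + d)) * (1 / (V₂ + d))) ≤ (d * (2 * (K * s))) * ((2 * D / s) * (2 * D / s)) := by
    have : 0 ≤ a - a₂ := by linarith
    gcongr
  have b2 : a * d * ((1 / V₂) * (1 / (V₁ + d)) * (1 / (V₂ + d)) + (1 / V₁) * (1 / V₂) * (1 / (V₁ + d))) ≤
      (2 * s ^ 2) * d * ((2 * D / s) * (2 * D / s) * (2 * D / s) + (2 * D / s) * (2 * D / s) * (2 * D / s)) := by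
    have ha : 0 ≤ a := by linarith
    gcongr
  have c1 : (d * (2 * (K * s))) * ((2 * D / s) * (2 * D / s)) = 8 * K * D ^ 2 * d / s := by
    field_simp
    ring
  have c2 : (2 * s ^ 2) * d * ((2 * D / s) * (2 * D / s) * (2 * D / s) + (2 * D / s) * (2 * D / s) * (2 * D / s))
      = 32 * D ^ 3 * d / s := by
    field_simp
    ring
  have hnn : 0 ≤ a / (V₁ * V₂) - a₂ / ((V₁ + d) * (V₂ + d)) := by
    rw [e]
    have : 0 ≤ a - a₂ := by linarith
    have ha : 0 ≤ a := by linarith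
    positivity
  rw [abs_of_nonneg hnn, e]
  have c3 : 8 * K * D ^ 2 * d / s ≤ 8 * K * D ^ 3 * d / s := by
    have hDD : D ^ 2 ≤ D ^ 3 := pow_le_pow_right₀ hD (by norm_num)
    gcongr
  have c4 : 32 * D ^ 3 * d / s ≤ 32 * K * D ^ 3 * d / s := by
    gcongr
    nlinarith
  have c5 : 8 * K * D ^ 3 * d / s + 32 * K * D ^ 3 * d / s = 40 * K * D ^ 3 * d / s := by ring
  linarith

/-- the error -/
noncomputable def Er (K D s L M' V : ℕ) : ℝ :=
  2 * D * L / M' + (L + 6) * (40 * K * D ^ 3 * V / s)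

/-- the next fraction is determined, up to a small error, by the label, on a block -/
lemma step_var (h : Dat K D s N f A) {L M' V : ℕ} (hM' : 1 ≤ M') {u w d : ℕ} (hd : d ≤ V)
    (hd3 : 3 ∣ d) (hu : u ∈ W D s f) (hw : w ∈ W D s f) (hu2 : u + d ∈ W D s f)
    (hw2 : w + d ∈ W D s f) (huw : u < w) (hwL : w ≤ u + L)
    (hgap : ∀ k, u < k → k < w → M' * g A k < s)
    (hgap2 : ∀ k, u + d < k → k < w + d → M' * g A k < s)
    (hlab : Lab A u = Lab A (u + d)) :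
    ∃ j : ℤ, |(A w : ℝ) / v w - (A (w + d) : ℝ) / v (w + d) - j| ≤ Er K D s L M' V := by
  have hK := h.K1
  have hD := h.D2
  have hs := h.s1
  rw [mem_W] at hu hw hu2 hw2
  have sumb : ∀ x y : ℕ, y ≤ x + L → (∀ k, x < k → k < y → M' * g A k < s) →
      M' * ∑ k ∈ Ico (x + 1) y, g A k ≤ L * s := by
    intro x y hxy hg
    rw [mul_sum]
    calc ∑ k ∈ Ico (x + 1) y, M' * g A k ≤ (Ico (x + 1) y).card • s := by
          apply sum_le_card_nsmul
          intro k hk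
          rw [mem_Ico] at hk
          exact (hg k (by omega) (by omega)).le
      _ = (y - (x + 1)) * s := by rw [Nat.card_Ico, smul_eq_mul]
      _ ≤ L * s := Nat.mul_le_mul_right _ (by omega)
  -- one step
  have one : ∀ x y : ℕ, (2 ≤ x ∧ x ≤ f) → (2 ≤ y ∧ y ≤ f) → x < y →
      (A y : ℝ) / v y = (A x : ℝ) / v x - 1 / ((Lab A x).2 : ℝ) - (∑ k ∈ Ico (x + 1) y, g A k : ℕ) / (v x : ℝ)
        - ((v y : ℝ) - v x) * ((A y : ℝ) / (v x * v y)) := by
    intro x y hx hy hxy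
    have hstep := h.step x hx.1 hx.2
    have htele := h.tele (x + 1) y (by omega) (by omega) (by omega)
    have e1 : (A y : ℝ) = A x - g A x - (∑ k ∈ Ico (x + 1) y, g A k : ℕ) := by
      have : A y + (∑ k ∈ Ico (x + 1) y, g A k) + g A x = A x := by omega
      have : (A y : ℝ) + (∑ k ∈ Ico (x + 1) y, g A k : ℕ) + g A x = A x := by exact_mod_cast this
      linarith
    have hvx : (0 : ℝ) < v x := by exact_mod_cast v_pos (by omega : 1 ≤ x)
    have hvy : (0 : ℝ) < v y := by exact_mod_cast v_pos (by omega : 1 ≤ y)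
    have hg : (0 : ℝ) < g A x := by exact_mod_cast g_pos' (A := A) (by omega : 1 ≤ x)
    have hμ : (0 : ℝ) < (Lab A x).2 := by
      have := lab_pos (A := A) (by omega : 1 ≤ x)
      exact_mod_cast (show 0 < (Lab A x).2 by omega)
    have e2 : (v x : ℝ) = g A x * ((Lab A x).2 : ℝ) := by exact_mod_cast v_eq_lab (A := A) (n := x)
    have e3 : 1 / ((Lab A x).2 : ℝ) = g A x / v x := by
      rw [e2]
      field_simp
    rw [e3]
    have e4 : (A y : ℝ) / v y = (A y : ℝ) / v x - ((v y : ℝ) - v x) * ((A y : ℝ) / (v x * v y)) := by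
      field_simp
      ring
    rw [e4]
    nth_rewrite 1 [e1]
    ring
  have o1 := one u w hu.1 hw.1 huw
  have o2 := one (u + d) (w + d) hu2.1 hw2.1 (by omega)
  have q1 := x_eq (A := A) (n := u) (by omega)
  have q2 := x_eq (A := A) (n := u + d) (by omega)
  have hmod : ∀ z : ℕ, z % 3 = (z + d) % 3 := fun z => by omega
  have sh1 := v_shift (n₁ := u) (n₂ := u + d) (hmod u) 0
  have sh2 := v_shift (n₁ := w) (n₂ := w + d) (hmod w) 0
  simp only [Nat.add_zero] at sh1 sh2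
  have sh1R : (v (u + d) : ℝ) = v u + d := by
    have : (v u : ℝ) + ((u : ℝ) + d) = v (u + d) + u := by exact_mod_cast sh1
    linarith
  have sh2R : (v (w + d) : ℝ) = v w + d := by
    have : (v w : ℝ) + ((w : ℝ) + d) = v (w + d) + w := by exact_mod_cast sh2
    linarith
  rw [← hlab] at o2 q2
  obtain ⟨m₁, hm₁⟩ : ∃ m₁ : ℕ, m₁ = (A u / g A u) / (v u / g A u) := ⟨_, rfl⟩
  obtain ⟨m₂, hm₂⟩ : ∃ m₂ : ℕ, m₂ = (A (u + d) / g A (u + d)) / (v (u + d) / g A (u + d)) := ⟨_, rfl⟩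
  rw [← hm₁] at q1
  rw [← hm₂] at q2
  refine ⟨(m₁ : ℤ) - (m₂ : ℤ), ?_⟩
  -- bounds
  have hsR : (0 : ℝ) < s := by exact_mod_cast (show 0 < s by omega)
  have hM'R : (1 : ℝ) ≤ M' := by exact_mod_cast hM'
  have hDR : (1 : ℝ) ≤ D := by exact_mod_cast (show 1 ≤ D by omega)
  have hKR : (1 : ℝ) ≤ K := by exact_mod_cast hK
  have hvs : ∀ x : ℕ, s ≤ 2 * D * x → (s : ℝ) ≤ 2 * D * v x := by
    intro x hx
    exact_mod_cast hx.trans (Nat.mul_le_mul_left _ (le_v x))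
  have sb : ∀ (S : ℕ) (V : ℝ), M' * S ≤ L * s → (s : ℝ) ≤ 2 * D * V → 0 < V →
      (S : ℝ) / V ≤ 2 * D * L / M' := by
    intro S V hS hV hVp
    have hSR : (M' : ℝ) * S ≤ L * s := by exact_mod_cast hS
    rw [div_le_div_iff₀ hVp (by linarith)]
    have : (L : ℝ) * s ≤ L * (2 * D * V) := by
      have : (0 : ℝ) ≤ L := Nat.cast_nonneg _
      gcongr
    linarith
  have hvu : (0 : ℝ) < v u := by exact_mod_cast v_pos (by omega : 1 ≤ u)
  have hvu2 : (0 : ℝ) < v (u + d) := by exact_mod_cast v_pos (by omega : 1 ≤ u + d)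
  obtain ⟨S₁, hS₁⟩ : ∃ S₁, S₁ = ∑ k ∈ Ico (u + 1) w, g A k := ⟨_, rfl⟩
  obtain ⟨S₂, hS₂⟩ : ∃ S₂, S₂ = ∑ k ∈ Ico (u + d + 1) (w + d), g A k := ⟨_, rfl⟩
  have t1 := sb S₁ (v u) (by rw [hS₁]; exact sumb u w hwL hgap) (hvs u hu.2) hvu
  have t2 := sb S₂ (v (u + d)) (by rw [hS₂]; exact sumb (u + d) (w + d) (by omega) hgap2)
    (hvs (u + d) hu2.2) hvu2
  have t1p : 0 ≤ (S₁ : ℝ) / v u := by positivity
  have t2p : 0 ≤ (S₂ : ℝ) / v (u + d) := by positivity
  rw [← hS₁] at o1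
  rw [← hS₂] at o2
  -- variation
  have hAle : A (w + d) ≤ A w := h.anti (by omega) (by omega) (by omega)
  have hAN : A w ≤ N := h.le_N (by omega) (by omega)
  have hN2 := h.N2
  have htele2 := h.tele w (w + d) (by omega) (by omega) (by omega)
  have hsum2 : ∑ k ∈ Ico w (w + d), g A k ≤ d * (2 * (K * s)) := by
    have e2 : ∑ k ∈ Ico w (w + d), g A k ≤ (Ico w (w + d)).card • (2 * (K * s)) := by
      apply sum_le_card_nsmul
      intro k hk
      rw [mem_Ico] at hk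
      exact (g_le_v k (by omega)).trans (h.v_le_Ks (by omega))
    rwa [Nat.card_Ico, smul_eq_mul, Nat.add_sub_cancel_left] at e2
  have hdiff : (A w : ℝ) - A (w + d) ≤ d * (2 * (K * s)) := by
    have : A w ≤ A (w + d) + d * (2 * (K * s)) := by omega
    have : (A w : ℝ) ≤ A (w + d) + d * (2 * (K * s)) := by exact_mod_cast this
    linarith
  have hvar := var_bound s K D (A w) (A (w + d)) (v u) (v w) d hsR hKR hDR (Nat.cast_nonneg _)
    (hvs u hu.2) (hvs w hw.2) (by exact_mod_cast hAle) (Nat.cast_nonneg _)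
    (by have : A w ≤ 2 * (s * s) := hAN.trans hN2
        have : (A w : ℝ) ≤ 2 * (s * s) := by exact_mod_cast this
        nlinarith) hdiff
  rw [← sh1R, ← sh2R] at hvar
  have hη : |(v w : ℝ) - v u| ≤ (L : ℝ) + 6 := by
    have b1 := v_le u
    have b2 := v_le w
    have b3 := le_v u
    have b4 := le_v w
    have : |(v w : ℤ) - v u| ≤ (L : ℤ) + 6 := by
      rw [abs_le]
      constructor <;> omega
    exact_mod_cast this
  have hη2 : (v (w + d) : ℝ) - v (u + d) = v w - v u := by rw [sh1R, sh2R]; ring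
  rw [hη2] at o2
  obtain ⟨X, hX⟩ : ∃ X : ℝ, X = (A w : ℝ) / (v u * v w) - (A (w + d) : ℝ) / (v (u + d) * v (w + d)) := ⟨_, rfl⟩
  rw [← hX] at hvar
  have hvar2 : |X| ≤ 40 * K * D ^ 3 * V / s := by
    refine hvar.trans ?_
    have : (d : ℝ) ≤ V := by exact_mod_cast hd
    gcongr
  have efin : (A w : ℝ) / v w - (A (w + d) : ℝ) / v (w + d) -
      (((m₁ : ℤ) - (m₂ : ℤ) : ℤ) : ℝ) =
      ((S₂ : ℝ) / v (u + d) - (S₁ : ℝ) / v u) - ((v w : ℝ) - v u) * X := by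
    rw [o1, o2, q1, q2, hX]
    push_cast
    ring
  rw [efin]
  unfold Er
  have r1 : |(S₂ : ℝ) / v (u + d) - (S₁ : ℝ) / v u| ≤ 2 * D * L / M' := by
    rw [abs_le]
    constructor <;> linarith
  have r2 : |((v w : ℝ) - v u) * X| ≤ (L + 6) * (40 * K * D ^ 3 * V / s) := by
    rw [abs_mul]
    gcongr
  exact (abs_sub _ _).trans (add_le_add r1 r2)

end Pool.Agent.K9h6.GS
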